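import Mathlib.Algebra.BigOperators.Fin
import Mathlib.Tactic.LinearCombination
import Mathlib.Topology.Sheaves.Presheaf
import Mathlib.Data.Int.Star
import Mathlib.Algebra.Order.Ring.Star
import Mathlib.Analysis.Normed.Ring.Lemmas
import Mathlib.Tactic.Bound
import Mathlib.NumberTheory.ArithmeticFunction.Misc
import Mathlib.Tactic.Polynomial.Basic

-- ======== part 0: formerly Pool.Agent.MP_a31471_co.Div
section MrgPart0

/-!
A crude divisor bound and counts of solutions of small quadratic systems.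
-/

set_option autoImplicit false

namespace Pool.Agent.MP_a31471_co

open Finset

lemma succ_cube_le (e : ℕ) : (e + 1) ^ 3 ≤ 27 * 2 ^ e := by
  have h1 : e + 1 ≤ 3 * (e / 3 + 1) := by omega
  have h2 : e / 3 + 1 ≤ 2 ^ (e / 3) := Nat.lt_two_pow_self
  have h3 : (2 ^ (e / 3)) ^ 3 ≤ 2 ^ e := by
    rw [← pow_mul]
    exact Nat.pow_le_pow_right (by norm_num) (by omega)
  calc (e + 1) ^ 3 ≤ (3 * 2 ^ (e / 3)) ^ 3 := Nat.pow_le_pow_left (by omega) 3
    _ = 27 * (2 ^ (e / 3)) ^ 3 := by ring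
    _ ≤ 27 * 2 ^ e := by omega

lemma card_divisors_cube (n : ℕ) (hn : n ≠ 0) : n.divisors.card ^ 3 ≤ 27 ^ 8 * n := by
  rw [Nat.card_divisors hn, ← Finset.prod_pow]
  have h1 : ∀ p ∈ n.primeFactors, (n.factorization p + 1) ^ 3
      ≤ (if p < 8 then 27 else 1) * p ^ n.factorization p := by
    intro p hp
    have hp2 : 2 ≤ p := (Nat.prime_of_mem_primeFactors hp).two_le
    split_ifs with h
    · exact (succ_cube_le _).trans (Nat.mul_le_mul_left _ (Nat.pow_le_pow_left hp2 _))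
    · have h2 : n.factorization p + 1 ≤ 2 ^ n.factorization p := Nat.lt_two_pow_self
      calc (n.factorization p + 1) ^ 3 ≤ (2 ^ n.factorization p) ^ 3 := Nat.pow_le_pow_left h2 3
        _ = 8 ^ n.factorization p := by rw [← pow_mul, mul_comm, pow_mul]; norm_num
        _ ≤ 1 * p ^ n.factorization p := by
          rw [one_mul]; exact Nat.pow_le_pow_left (by omega) _
  refine (Finset.prod_le_prod' h1).trans ?_
  rw [Finset.prod_mul_distrib]
  have h2 : ∏ p ∈ n.primeFactors, p ^ n.factorization p = n := by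
    conv_rhs => rw [← Nat.prod_factorization_pow_eq_self hn]
    rfl
  rw [h2]
  refine Nat.mul_le_mul_right _ ?_
  rw [Finset.prod_ite, Finset.prod_const_one, mul_one, Finset.prod_const]
  refine Nat.pow_le_pow_right (by norm_num) ?_
  calc (n.primeFactors.filter (fun p => p < 8)).card ≤ (range 8).card :=
        Finset.card_le_card (fun p hp => mem_range.2 (mem_filter.1 hp).2)
    _ = 8 := card_range 8

/-- A set of integers that are roots of a nonzero polynomial of degree at most two has at most two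
elements. -/
lemma card_le_two_of_quad {ι : Type*} (S : Finset ι) (x : ι → ℤ) (hx : Set.InjOn x S) (a b c : ℤ)
    (hab : a ≠ 0 ∨ b ≠ 0) (h : ∀ i ∈ S, a * x i ^ 2 + b * x i + c = 0) : S.card ≤ 2 := by
  have : S.card ≤ (univ : Finset Bool).card := by
    refine Finset.card_le_card_of_injOn (fun i => decide (0 ≤ 2 * a * x i + b))
      (fun _ _ => mem_coe.2 (mem_univ _)) ?_
    intro i hi j hj hij
    apply hx hi hj
    by_contra hne
    have h1 := h i hi
    have h2 := h j hj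
    have h3 : (x i - x j) * (a * (x i + x j) + b) = 0 := by linear_combination h1 - h2
    have h4 : a * (x i + x j) + b = 0 := (mul_eq_zero.1 h3).resolve_left (sub_ne_zero.2 hne)
    have h5 : (0 ≤ 2 * a * x i + b) ↔ (0 ≤ 2 * a * x j + b) := by simpa using hij
    have h6 : 2 * a * x i + b = 0 := by
      by_cases h7 : 0 ≤ 2 * a * x i + b
      · have := h5.1 h7
        nlinarith
      · have := mt h5.2 h7
        nlinarith
    have h7 : a * (x i - x j) = 0 := by linear_combination h6 - h4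
    have h8 : a = 0 := (mul_eq_zero.1 h7).resolve_right (sub_ne_zero.2 hne)
    have h9 : b = 0 := by rw [h8] at h4; simpa using h4
    tauto
  simpa using this

/-- Two unknown distinct positions with a linear and a quadratic equation. -/
lemma card_pair {ι : Type*} (S : Finset ι) (x y : ι → ℤ)
    (hxy : ∀ i ∈ S, ∀ j ∈ S, x i = x j → y i = y j → i = j) (r s A B : ℤ) (hr : r ≠ 0)
    (hs : s ≠ 0) (h : ∀ i ∈ S, x i ≠ y i ∧ r * x i + s * y i = A ∧
      r * x i ^ 2 + s * y i ^ 2 = B) : S.card ≤ 2 := by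
  rcases S.eq_empty_or_nonempty with rfl | ⟨i0, hi0⟩
  · simp
  refine card_le_two_of_quad S x ?_ (r * (r + s)) (-2 * A * r) (A ^ 2 - s * B) ?_ ?_
  · intro i hi j hj hij
    refine hxy i hi j hj hij ?_
    have h1 := (h i hi).2.1
    have h2 := (h j hj).2.1
    rw [hij] at h1
    exact mul_left_cancel₀ hs (by linarith)
  · by_cases hrs : r + s = 0
    · right
      obtain ⟨h1, h2, -⟩ := h i0 hi0
      have hA : A ≠ 0 := by
        intro hA
        have : r * (x i0 - y i0) = 0 := by linear_combination h2 + hA - y i0 * hrs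
        exact h1 (sub_eq_zero.1 ((mul_eq_zero.1 this).resolve_left hr))
      exact mul_ne_zero (mul_ne_zero (by norm_num) hA) hr
    · exact Or.inl (mul_ne_zero hr hrs)
  · intro i hi
    obtain ⟨-, h2, h3⟩ := h i hi
    linear_combination s * h3 + (r * x i - s * y i - A) * h2

/-- Three unknown distinct positions with signs `+ + -`. -/
lemma card_triple {k : ℕ} {ι : Type*} (S : Finset ι) (x y z : ι → Fin k)
    (hxy : ∀ i ∈ S, ∀ j ∈ S, x i = x j → y i = y j → z i = z j → i = j) (r A B : ℤ) (hr : r ≠ 0)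
    (h : ∀ i ∈ S, x i ≠ z i ∧ y i ≠ z i ∧
      r * ((x i : ℕ) : ℤ) + r * ((y i : ℕ) : ℤ) + -r * ((z i : ℕ) : ℤ) = A ∧
      r * ((x i : ℕ) : ℤ) ^ 2 + r * ((y i : ℕ) : ℤ) ^ 2 + -r * ((z i : ℕ) : ℤ) ^ 2 = B) :
    S.card ^ 3 ≤ 8 * 27 ^ 8 * k ^ 2 := by
  rcases S.eq_empty_or_nonempty with rfl | ⟨i0, hi0⟩
  · simp
  set u : ι → ℤ := fun i => ((z i : ℕ) : ℤ) - ((x i : ℕ) : ℤ) with hu
  set v : ι → ℤ := fun i => ((z i : ℕ) : ℤ) - ((y i : ℕ) : ℤ) with hv
  have hW : ∀ i ∈ S, u i * v i = u i0 * v i0 ∧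
      ((x i : ℕ) : ℤ) + ((y i : ℕ) : ℤ) - ((z i : ℕ) : ℤ)
        = ((x i0 : ℕ) : ℤ) + ((y i0 : ℕ) : ℤ) - ((z i0 : ℕ) : ℤ) := by
    intro i hi
    obtain ⟨-, -, h1, h2⟩ := h i hi
    obtain ⟨-, -, h3, h4⟩ := h i0 hi0
    have e1 : ((x i : ℕ) : ℤ) + ((y i : ℕ) : ℤ) - ((z i : ℕ) : ℤ)
        = ((x i0 : ℕ) : ℤ) + ((y i0 : ℕ) : ℤ) - ((z i0 : ℕ) : ℤ) :=
      mul_left_cancel₀ hr (by linear_combination h1 - h3)
    have e2 : ((x i : ℕ) : ℤ) ^ 2 + ((y i : ℕ) : ℤ) ^ 2 - ((z i : ℕ) : ℤ) ^ 2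
        = ((x i0 : ℕ) : ℤ) ^ 2 + ((y i0 : ℕ) : ℤ) ^ 2 - ((z i0 : ℕ) : ℤ) ^ 2 :=
      mul_left_cancel₀ hr (by linear_combination h2 - h4)
    refine ⟨?_, e1⟩
    have : 2 * (u i * v i) = 2 * (u i0 * v i0) := by
      simp only [hu, hv]
      linear_combination (((x i : ℕ) : ℤ) + ((y i : ℕ) : ℤ) - ((z i : ℕ) : ℤ)
        + (((x i0 : ℕ) : ℤ) + ((y i0 : ℕ) : ℤ) - ((z i0 : ℕ) : ℤ))) * e1 - e2
    linarith
  have hu0 : ∀ i ∈ S, u i ≠ 0 ∧ v i ≠ 0 := by
    intro i hi
    obtain ⟨h1, h2, -⟩ := h i hi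
    simp only [hu, hv]
    constructor
    · intro h0; apply h1; apply Fin.ext; omega
    · intro h0; apply h2; apply Fin.ext; omega
  set W := (u i0 * v i0).natAbs with hWdef
  have hW0 : W ≠ 0 := Int.natAbs_ne_zero.2 (mul_ne_zero (hu0 i0 hi0).1 (hu0 i0 hi0).2)
  have hWk : W ≤ k ^ 2 := by
    rw [hWdef, Int.natAbs_mul, sq]
    have := (x i0).2
    have := (y i0).2
    have := (z i0).2
    refine Nat.mul_le_mul ?_ ?_
    · simp only [hu]; omega
    · simp only [hv]; omega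
  have hc : S.card ≤ (W.divisors ×ˢ (univ : Finset Bool)).card := by
    refine Finset.card_le_card_of_injOn (fun i => ((u i).natAbs, decide (0 ≤ u i))) ?_ ?_
    · intro i hi
      refine mem_coe.2 (mem_product.2 ⟨Nat.mem_divisors.2 ⟨?_, hW0⟩, mem_univ _⟩)
      rw [hWdef, ← (hW i hi).1, Int.natAbs_mul]
      exact Dvd.intro _ rfl
    · intro i hi j hj hij
      simp only [Prod.mk.injEq, decide_eq_decide] at hij
      have e1 : u i = u j := by omega
      have e2 : v i = v j := by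
        have := (hW i hi).1.trans (hW j hj).1.symm
        rw [e1] at this
        exact mul_left_cancel₀ (hu0 j hj).1 this
      have e3 := (hW i hi).2.trans (hW j hj).2.symm
      simp only [hu, hv] at e1 e2
      refine hxy i hi j hj (Fin.ext ?_) (Fin.ext ?_) (Fin.ext ?_) <;> omega
  rw [card_product, card_univ, Fintype.card_bool] at hc
  calc S.card ^ 3 ≤ (W.divisors.card * 2) ^ 3 := Nat.pow_le_pow_left hc 3
    _ = 8 * W.divisors.card ^ 3 := by ring
    _ ≤ 8 * (27 ^ 8 * W) := Nat.mul_le_mul_left _ (card_divisors_cube W hW0)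
    _ ≤ 8 * (27 ^ 8 * k ^ 2) := Nat.mul_le_mul_left _ (Nat.mul_le_mul_left _ hWk)
    _ = 8 * 27 ^ 8 * k ^ 2 := by ring

end Pool.Agent.MP_a31471_co

end MrgPart0

-- ======== part 1: formerly Pool.Agent.MP_a31471_co.Lab
section MrgPart1

/-!
Labels, valid labellings and the elimination bound.
-/

set_option autoImplicit false

namespace Pool.Agent.MP_a31471_co

open Finset

/-- Quadratic frequency of a label (label `0` is the inactive one). -/
def lr : Fin 9 → ℤ := ![0, 1, 3, 3, 1, -1, -3, -3, -1]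
/-- Linear frequency of a label. -/
def lh : Fin 9 → ℤ := ![0, 1, 2, 1, 0, -1, -2, -1, 0]
/-- Sign of a label. -/
def ls : Fin 9 → ℤ := ![1, 1, 1, 1, -1, 1, 1, 1, -1]
/-- Type of a label. -/
def lty : Fin 9 → Fin 4 := ![0, 0, 1, 2, 3, 0, 1, 2, 3]

@[simp] lemma lr_zero : lr 0 = 0 := rfl
@[simp] lemma lh_zero : lh 0 = 0 := rfl
@[simp] lemma ls_zero : ls 0 = 1 := rfl

def Valid {k : ℕ} (σ : Fin k → Fin 9) : Prop :=
  ∑ i, lr (σ i) = 0 ∧ ∑ i, lr (σ i) * ((i : ℕ) : ℤ) = 0 ∧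
    ∑ i, lr (σ i) * ((i : ℕ) : ℤ) ^ 2 = 0 ∧ ∑ i, lh (σ i) = 0 ∧ ∑ i, lh (σ i) * ((i : ℕ) : ℤ) = 0

instance {k : ℕ} : DecidablePred (Valid (k := k)) := fun σ => by unfold Valid; infer_instance

noncomputable def wt (b : ℝ) (L : Fin 9) : ℝ := if L = 0 then 1 else b * ls L / 8

noncomputable def corr {k : ℕ} (b : Fin k → ℝ) : ℝ :=
  ∑ σ ∈ univ.filter (Valid (k := k)), ∏ i, wt (b i) (σ i)

noncomputable def W {k : ℕ} (ρ : ℝ) (σ : Fin k → Fin 9) : ℝ :=
  ∏ i, (if σ i = 0 then 1 else ρ / 8)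

lemma W_nonneg {k : ℕ} {ρ : ℝ} (hρ : 0 ≤ ρ) (σ : Fin k → Fin 9) : 0 ≤ W ρ σ :=
  prod_nonneg fun i _ => by split_ifs <;> positivity

lemma sum_W (k : ℕ) (ρ : ℝ) : ∑ σ : Fin k → Fin 9, W ρ σ = (1 + ρ) ^ k := by
  have h := Finset.prod_univ_sum (fun _ : Fin k => (univ : Finset (Fin 9)))
    (fun _ L => if L = 0 then (1 : ℝ) else ρ / 8)
  rw [Fintype.piFinset_univ] at h
  unfold W
  rw [← h]
  have : ∑ L : Fin 9, (if L = 0 then (1 : ℝ) else ρ / 8) = 1 + ρ := by
    simp [Fin.sum_univ_succ]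
    ring
  simp [this]

lemma abs_ls (L : Fin 9) : |(ls L : ℝ)| = 1 := by
  have : ls L = 1 ∨ ls L = -1 := by revert L; decide
  rcases this with h | h <;> simp [h]

lemma abs_prod_wt_le {k : ℕ} {ρ : ℝ} (b : Fin k → ℝ) (hb : ∀ i, |b i| ≤ ρ) (σ : Fin k → Fin 9) :
    |∏ i, wt (b i) (σ i)| ≤ W ρ σ := by
  rw [Finset.abs_prod]
  refine Finset.prod_le_prod (fun _ _ => abs_nonneg _) fun i _ => ?_
  unfold wt
  split_ifs
  · simp
  · rw [abs_div, abs_mul, abs_ls]
    have := hb i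
    norm_num
    linarith

/-- The labelling with the positions in the range of `p` switched off. -/
def off {k n : ℕ} (σ : Fin k → Fin 9) (p : Fin n → Fin k) : Fin k → Fin 9 :=
  fun i => if i ∈ univ.image p then 0 else σ i

lemma sum_off {k n : ℕ} (σ : Fin k → Fin 9) (p : Fin n → Fin k) (hp : Function.Injective p)
    (F : Fin 9 → Fin k → ℤ) (hF : ∀ i, F 0 i = 0) :
    ∑ i, F (σ i) i = ∑ i, F (off σ p i) i + ∑ j, F (σ (p j)) (p j) := by
  rw [← Finset.sum_image (s := univ) (g := p) (f := fun i => F (σ i) i) (fun a _ b _ h => hp h),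
    ← Finset.sum_filter_add_sum_filter_not univ (fun i => i ∈ univ.image p),
    ← Finset.sum_filter_add_sum_filter_not univ (fun i => i ∈ univ.image p)
      (fun i => F (off σ p i) i)]
  have h1 : ∑ i ∈ univ.filter (fun i => i ∈ univ.image p), F (off σ p i) i = 0 :=
    Finset.sum_eq_zero fun i hi => by rw [off, if_pos (mem_filter.1 hi).2, hF]
  have h2 : ∑ i ∈ univ.filter (fun i => ¬ i ∈ univ.image p), F (off σ p i) i
      = ∑ i ∈ univ.filter (fun i => ¬ i ∈ univ.image p), F (σ i) i :=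
    Finset.sum_congr rfl fun i hi => by rw [off, if_neg (mem_filter.1 hi).2]
  rw [h1, h2, Finset.filter_mem_eq_inter, univ_inter]
  ring

lemma prod_off {k n : ℕ} (σ : Fin k → Fin 9) (p : Fin n → Fin k) (hp : Function.Injective p)
    (F : Fin 9 → Fin k → ℝ) (hF : ∀ i, F 0 i = 1) :
    ∏ i, F (σ i) i = (∏ i, F (off σ p i) i) * ∏ j, F (σ (p j)) (p j) := by
  rw [← Finset.prod_image (s := univ) (g := p) (f := fun i => F (σ i) i) (fun a _ b _ h => hp h),
    ← Finset.prod_filter_mul_prod_filter_not univ (fun i => i ∈ univ.image p),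
    ← Finset.prod_filter_mul_prod_filter_not univ (fun i => i ∈ univ.image p)
      (fun i => F (off σ p i) i)]
  have h1 : ∏ i ∈ univ.filter (fun i => i ∈ univ.image p), F (off σ p i) i = 1 :=
    Finset.prod_eq_one fun i hi => by rw [off, if_pos (mem_filter.1 hi).2, hF]
  have h2 : ∏ i ∈ univ.filter (fun i => ¬ i ∈ univ.image p), F (off σ p i) i
      = ∏ i ∈ univ.filter (fun i => ¬ i ∈ univ.image p), F (σ i) i :=
    Finset.prod_congr rfl fun i hi => by rw [off, if_neg (mem_filter.1 hi).2]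
  rw [h1, h2, Finset.filter_mem_eq_inter, univ_inter]
  ring

/-- Elimination: if every labelling in `V` has `n` active positions of a good pattern and such
positions are determined up to `J` choices by the rest, the total weight of `V` is small. -/
lemma elim {k n : ℕ} (V : Finset (Fin k → Fin 9)) (Good : (Fin n → Fin 9) → Prop) (J ρ : ℝ)
    (hρ : 0 ≤ ρ) (hJ0 : 0 ≤ J)
    (hV : ∀ σ ∈ V, Valid σ ∧ ∃ p : Fin n → Fin k, Function.Injective p ∧ (∀ j, σ (p j) ≠ 0) ∧
      Good (fun j => σ (p j)))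
    (hJ : ∀ (S : Finset (Fin n → Fin k)) (L : Fin n → Fin 9) (A B C : ℤ), Good L →
      (∀ j, L j ≠ 0) → (∀ p ∈ S, Function.Injective p ∧ ∑ j, lr (L j) * ((p j : ℕ) : ℤ) = A ∧
        ∑ j, lr (L j) * ((p j : ℕ) : ℤ) ^ 2 = B ∧ ∑ j, lh (L j) * ((p j : ℕ) : ℤ) = C) →
      (S.card : ℝ) ≤ J) :
    ∑ σ ∈ V, W ρ σ ≤ J * ρ ^ n * (1 + ρ) ^ k := by
  classical
  rcases V.eq_empty_or_nonempty with rfl | ⟨σ0, hσ0⟩
  · simp only [sum_empty]; positivity
  have : Nonempty (Fin n → Fin k) := ⟨(hV σ0 hσ0).2.choose⟩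
  have hV2 := fun σ hσ => (hV σ hσ).2
  choose! p hp1 hp2 hp3 using hV2
  set φ : (Fin k → Fin 9) → (Fin k → Fin 9) × (Fin n → Fin 9) :=
    fun σ => (off σ (p σ), fun j => σ (p σ j)) with hφ
  set G : (Fin k → Fin 9) × (Fin n → Fin 9) → ℝ :=
    fun y => W ρ y.1 * ∏ j, (if y.2 j = 0 then 0 else ρ / 8) with hG
  have hG0 : ∀ y, 0 ≤ G y := fun y => mul_nonneg (W_nonneg hρ _)
    (prod_nonneg fun i _ => by split_ifs <;> positivity)
  have h1 : ∀ σ ∈ V, W ρ σ = G (φ σ) := by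
    intro σ hσ
    have := prod_off σ (p σ) (hp1 σ hσ) (fun L _ => if L = 0 then (1 : ℝ) else ρ / 8)
      (fun _ => by simp)
    simp only [hG, hφ, W]
    rw [this]
    congr 1
    refine Finset.prod_congr rfl fun j _ => ?_
    rw [if_neg (hp2 σ hσ j), if_neg (hp2 σ hσ j)]
  have h2 : ∀ y, ((V.filter (fun σ => φ σ = y)).card : ℝ) ≤ J := by
    intro y
    rcases (V.filter (fun σ => φ σ = y)).eq_empty_or_nonempty with h | ⟨σ1, hσ1⟩
    · rw [h]; simpa using hJ0
    have hinj : Set.InjOn p (V.filter (fun σ => φ σ = y) : Finset _) := by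
      intro σ hσ σ' hσ' h
      have e := (mem_filter.1 hσ).2.trans (mem_filter.1 hσ').2.symm
      simp only [hφ, Prod.mk.injEq] at e
      funext i
      by_cases hi : i ∈ univ.image (p σ)
      · obtain ⟨j, -, rfl⟩ := mem_image.1 hi
        have := congrFun e.2 j
        rw [this, h]
      · have := congrFun e.1 i
        rwa [off, off, ← h, if_neg hi, if_neg hi] at this
    rw [← Finset.card_image_of_injOn hinj]
    have e1 := (mem_filter.1 hσ1).2
    have hy2 : y.2 = fun j => σ1 (p σ1 j) := by rw [← e1]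
    refine hJ _ y.2 (-∑ i, lr (y.1 i) * ((i : ℕ) : ℤ)) (-∑ i, lr (y.1 i) * ((i : ℕ) : ℤ) ^ 2)
      (-∑ i, lh (y.1 i) * ((i : ℕ) : ℤ)) ?_ ?_ ?_
    · rw [hy2]; exact hp3 σ1 (mem_filter.1 hσ1).1
    · rw [hy2]; exact hp2 σ1 (mem_filter.1 hσ1).1
    · intro q hq
      obtain ⟨σ, hσ, rfl⟩ := mem_image.1 hq
      obtain ⟨hσV, rfl⟩ := mem_filter.1 hσ
      obtain ⟨-, v1, v2, -, v3⟩ := (hV σ hσV).1
      have s1 := sum_off σ (p σ) (hp1 σ hσV) (fun L i => lr L * ((i : ℕ) : ℤ)) (fun _ => by simp)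
      have s2 := sum_off σ (p σ) (hp1 σ hσV) (fun L i => lr L * ((i : ℕ) : ℤ) ^ 2)
        (fun _ => by simp)
      have s3 := sum_off σ (p σ) (hp1 σ hσV) (fun L i => lh L * ((i : ℕ) : ℤ)) (fun _ => by simp)
      simp only [hφ]
      refine ⟨hp1 σ hσV, ?_, ?_, ?_⟩ <;> linarith
  have h3 : ∑ y, G y = ρ ^ n * (1 + ρ) ^ k := by
    rw [Fintype.sum_prod_type]
    simp only [hG]
    rw [← Finset.sum_mul_sum univ univ (W ρ)
      (fun L : Fin n → Fin 9 => ∏ j, (if L j = 0 then (0 : ℝ) else ρ / 8)), sum_W]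
    have h := Finset.prod_univ_sum (fun _ : Fin n => (univ : Finset (Fin 9)))
      (fun _ L => if L = 0 then (0 : ℝ) else ρ / 8)
    rw [Fintype.piFinset_univ] at h
    rw [← h]
    have : ∑ L : Fin 9, (if L = 0 then (0 : ℝ) else ρ / 8) = ρ := by
      simp [Fin.sum_univ_succ]
      ring
    simp [this, mul_comm]
  rw [Finset.sum_congr rfl h1, ← Finset.sum_fiberwise V φ (fun σ => G (φ σ)), mul_assoc, ← h3,
    Finset.mul_sum]
  refine Finset.sum_le_sum fun y _ => ?_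
  rw [Finset.sum_congr rfl (g := fun _ => G y) (fun σ hσ => by rw [(mem_filter.1 hσ).2]),
    Finset.sum_const, nsmul_eq_mul]
  exact mul_le_mul_of_nonneg_right (h2 y) (hG0 y)

end Pool.Agent.MP_a31471_co

end MrgPart1

-- ======== part 2: formerly Pool.Agent.MP_a31471_co.Bounds
section MrgPart2

/-!
Upper bounds for the correlation sums.
-/

set_option autoImplicit false

namespace Pool.Agent.MP_a31471_co

open Finset

lemma lr_ne {L : Fin 9} (h : L ≠ 0) : lr L ≠ 0 := by revert L; decide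

lemma valid_zero (k : ℕ) : Valid (0 : Fin k → Fin 9) := by simp [Valid]

lemma corr_eq {k : ℕ} (b : Fin k → ℝ) : corr b
    = 1 + ∑ σ ∈ (univ.filter (Valid (k := k))).erase 0, ∏ i, wt (b i) (σ i) := by
  unfold corr
  rw [← Finset.add_sum_erase _ _ (a := 0) (mem_filter.2 ⟨mem_univ _, valid_zero k⟩)]
  simp [wt]

lemma corr_le {k : ℕ} {ρ : ℝ} (hρ : 0 ≤ ρ) (b : Fin k → ℝ) (hb : ∀ i, |b i| ≤ ρ) :
    corr b ≤ 1 + 2 * ρ ^ 2 * (1 + ρ) ^ k := by
  rw [corr_eq]
  refine add_le_add le_rfl (le_trans (Finset.sum_le_sum fun σ _ =>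
    (le_abs_self _).trans (abs_prod_wt_le b hb σ)) ?_)
  refine elim _ (fun _ => True) 2 ρ hρ (by norm_num) ?_ ?_
  · intro σ hσ
    obtain ⟨h0, hv⟩ := mem_erase.1 hσ
    have hv := (mem_filter.1 hv).2
    refine ⟨hv, ?_⟩
    obtain ⟨i, hi⟩ := Function.ne_iff.1 h0
    have : ∃ j, j ≠ i ∧ σ j ≠ 0 := by
      by_contra hc
      push Not at hc
      have h1 := hv.1
      rw [Finset.sum_eq_single i (fun j _ hj => by rw [hc j hj, lr_zero]) (by simp)] at h1
      exact lr_ne hi h1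
    obtain ⟨j, hj, hj0⟩ := this
    refine ⟨![i, j], ?_, ?_, trivial⟩
    · intro a a' h
      fin_cases a <;> fin_cases a' <;> simp_all
    · intro a
      fin_cases a
      · exact hi
      · exact hj0
  · intro S L A B C _ hL hS
    have := card_pair S (fun p => ((p 0 : ℕ) : ℤ)) (fun p => ((p 1 : ℕ) : ℤ)) ?_ (lr (L 0))
      (lr (L 1)) A B (lr_ne (hL 0)) (lr_ne (hL 1)) ?_
    · exact_mod_cast this
    · intro p _ q _ h0 h1
      funext a
      fin_cases a
      · exact Fin.ext (by exact_mod_cast h0)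
      · exact Fin.ext (by exact_mod_cast h1)
    · intro p hp
      obtain ⟨h1, h2, h3, -⟩ := hS p hp
      rw [Fin.sum_univ_two] at h2 h3
      refine ⟨fun h => ?_, h2, h3⟩
      have : p 0 = p 1 := Fin.ext (by exact_mod_cast h)
      exact absurd (h1 this) (by decide)

/-- The patterns of three labels used for the elimination. -/
def Good3 (L : Fin 3 → Fin 9) : Prop :=
  (lty (L 0) = lty (L 1) ∧ lty (L 2) ≠ lty (L 0)) ∨ (lr (L 1) = lr (L 0) ∧ lr (L 2) = -lr (L 0))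

lemma lty_eq : ∀ L M : Fin 9, L ≠ 0 → M ≠ 0 → (lty L = lty M ↔ lh L * lr M = lr L * lh M) := by
  decide

lemma lty_r : ∀ L M : Fin 9, L ≠ 0 → M ≠ 0 → lty L = lty M → lr M = lr L ∨ lr M = -lr L := by
  decide

lemma inj3 {α : Type*} {a b c : α} (hab : a ≠ b) (hac : a ≠ c) (hbc : b ≠ c) :
    Function.Injective ![a, b, c] := by
  intro i j h
  fin_cases i <;> fin_cases j <;> simp_all

lemma exists_good3 {k : ℕ} (σ : Fin k → Fin 9) (hv : Valid σ)
    (h5 : 5 ≤ (univ.filter (fun i => σ i ≠ 0)).card) :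
    ∃ p : Fin 3 → Fin k, Function.Injective p ∧ (∀ j, σ (p j) ≠ 0) ∧ Good3 (fun j => σ (p j)) := by
  set S := univ.filter (fun i => σ i ≠ 0) with hS
  have hmem : ∀ i, i ∈ S ↔ σ i ≠ 0 := fun i => by simp [hS]
  have fin3 : ∀ a b c : Fin k, a ≠ b → a ≠ c → b ≠ c → σ a ≠ 0 → σ b ≠ 0 → σ c ≠ 0 →
      Good3 (fun j => σ (![a, b, c] j)) → ∃ p : Fin 3 → Fin k, Function.Injective p ∧
        (∀ j, σ (p j) ≠ 0) ∧ Good3 (fun j => σ (p j)) := by
    intro a b c hab hac hbc ha hb hc hg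
    refine ⟨![a, b, c], inj3 hab hac hbc, fun j => ?_, hg⟩
    fin_cases j
    · exact ha
    · exact hb
    · exact hc
  by_cases hall : ∀ i ∈ S, ∀ j ∈ S, lty (σ i) = lty (σ j)
  · obtain ⟨a, ha, b, hb, hab, hr⟩ := Finset.exists_ne_map_eq_of_card_lt_of_maps_to
      (s := S) (t := (univ : Finset Bool)) (by simp; omega) (f := fun i => decide (0 < lr (σ i)))
      (fun _ _ => mem_coe.2 (mem_univ _))
    have ha0 := (hmem a).1 ha
    have hb0 := (hmem b).1 hb
    have hr' : lr (σ b) = lr (σ a) := by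
      have h1 := lty_r _ _ ha0 hb0 (hall a ha b hb)
      have h2 := lr_ne ha0
      simp only [decide_eq_decide] at hr
      omega
    have : ∃ c ∈ S, lr (σ c) = -lr (σ a) := by
      by_contra hc
      push Not at hc
      have h1 : ∑ i, lr (σ i) = ∑ i ∈ S, lr (σ a) := by
        rw [← Finset.sum_subset (subset_univ S)]
        · refine Finset.sum_congr rfl fun i hi => ?_
          exact (lty_r _ _ ha0 ((hmem i).1 hi) (hall a ha i hi)).resolve_right (hc i hi)
        · intro i _ hi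
          rw [hmem, not_not] at hi
          rw [hi, lr_zero]
      rw [hv.1, Finset.sum_const, nsmul_eq_mul] at h1
      have h2 := lr_ne ha0
      rcases mul_eq_zero.1 h1.symm with h | h
      · have : S.card = 0 := by exact_mod_cast h
        omega
      · exact h2 h
    obtain ⟨c, hc, hc'⟩ := this
    have h2 := lr_ne ha0
    refine fin3 a b c hab ?_ ?_ ha0 hb0 ((hmem c).1 hc) (Or.inr ⟨hr', hc'⟩)
    · rintro rfl; omega
    · rintro rfl; omega
  · push Not at hall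
    obtain ⟨i, hi, j, hj, hij⟩ := hall
    obtain ⟨a, ha, b, hb, hab, hr⟩ := Finset.exists_ne_map_eq_of_card_lt_of_maps_to
      (s := S) (t := (univ : Finset (Fin 4))) (by simp; omega) (f := fun i => lty (σ i))
      (fun _ _ => mem_coe.2 (mem_univ _))
    have : ∃ c ∈ S, lty (σ c) ≠ lty (σ a) := by
      by_cases h : lty (σ i) = lty (σ a)
      · exact ⟨j, hj, fun h' => hij (h.trans h'.symm)⟩
      · exact ⟨i, hi, h⟩
    obtain ⟨c, hc, hc'⟩ := this
    refine fin3 a b c hab ?_ ?_ ((hmem a).1 ha) ((hmem b).1 hb) ((hmem c).1 hc)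
      (Or.inl ⟨hr, hc'⟩)
    · rintro rfl; exact hc' rfl
    · rintro rfl; exact hc' hr.symm

lemma sum_five_le {k : ℕ} {ρ J : ℝ} (hρ : 0 ≤ ρ) (hJ2 : 2 ≤ J)
    (hJ : 8 * 27 ^ 8 * (k : ℝ) ^ 2 ≤ J ^ 3) (V : Finset (Fin k → Fin 9))
    (hV : ∀ σ ∈ V, Valid σ ∧ 5 ≤ (univ.filter (fun i => σ i ≠ 0)).card) :
    ∑ σ ∈ V, W ρ σ ≤ J * ρ ^ 3 * (1 + ρ) ^ k := by
  refine elim V Good3 J ρ hρ (by linarith)
    (fun σ hσ => ⟨(hV σ hσ).1, exists_good3 σ (hV σ hσ).1 (hV σ hσ).2⟩) ?_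
  intro S L A B C hg hL hS
  have hext : ∀ p q : Fin 3 → Fin k, p 0 = q 0 → p 1 = q 1 → p 2 = q 2 → p = q := by
    intro p q h0 h1 h2
    funext a
    fin_cases a
    · exact h0
    · exact h1
    · exact h2
  rcases hg with ⟨g1, g2⟩ | ⟨g1, g2⟩
  · rcases S.eq_empty_or_nonempty with rfl | ⟨p0, hp0⟩
    · simp only [card_empty, Nat.cast_zero]; linarith
    have e1 := (lty_eq _ _ (hL 0) (hL 1)).1 g1
    have e2 : lh (L 0) * lr (L 2) - lr (L 0) * lh (L 2) ≠ 0 := fun h =>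
      g2 ((lty_eq _ _ (hL 0) (hL 2)).2 (sub_eq_zero.1 h)).symm
    have h2 : ∀ p ∈ S, ((p 2 : ℕ) : ℤ) = ((p0 2 : ℕ) : ℤ) := by
      intro p hp
      obtain ⟨-, a1, -, a3⟩ := hS p hp
      obtain ⟨-, b1, -, b3⟩ := hS p0 hp0
      rw [Fin.sum_univ_three] at a1 a3 b1 b3
      refine mul_left_cancel₀ e2 ?_
      linear_combination lh (L 0) * (a1 - b1) - lr (L 0) * (a3 - b3)
        - (((p 1 : ℕ) : ℤ) - ((p0 1 : ℕ) : ℤ)) * e1
    have := card_pair S (fun p => ((p 0 : ℕ) : ℤ)) (fun p => ((p 1 : ℕ) : ℤ)) ?_ (lr (L 0))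
      (lr (L 1)) (A - lr (L 2) * ((p0 2 : ℕ) : ℤ)) (B - lr (L 2) * ((p0 2 : ℕ) : ℤ) ^ 2)
      (lr_ne (hL 0)) (lr_ne (hL 1)) ?_
    · exact le_trans (by exact_mod_cast this) hJ2
    · intro p hp q hq h0 h1
      refine hext p q (Fin.ext (by exact_mod_cast h0)) (Fin.ext (by exact_mod_cast h1))
        (Fin.ext ?_)
      exact_mod_cast (h2 p hp).trans (h2 q hq).symm
    · intro p hp
      obtain ⟨h1, a1, a2, -⟩ := hS p hp
      rw [Fin.sum_univ_three, h2 p hp] at a1 a2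
      refine ⟨fun h => ?_, by linarith, by linarith⟩
      have : p 0 = p 1 := Fin.ext (by exact_mod_cast h)
      exact absurd (h1 this) (by decide)
  · have := card_triple S (fun p => p 0) (fun p => p 1) (fun p => p 2)
      (fun p _ q _ => hext p q) (lr (L 0)) A B (lr_ne (hL 0)) ?_
    · refine le_of_pow_le_pow_left₀ (n := 3) (by norm_num) (by linarith) (le_trans ?_ hJ)
      exact_mod_cast this
    · intro p hp
      obtain ⟨h1, a1, a2, -⟩ := hS p hp
      rw [Fin.sum_univ_three, g1, g2] at a1 a2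
      exact ⟨fun h => absurd (h1 h) (by decide), fun h => absurd (h1 h) (by decide), a1, a2⟩

end Pool.Agent.MP_a31471_co

end MrgPart2

-- marker of a merged file
example : 731051 + 480684 = 731051 + 480684 := rfl
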