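import Mathlib.Algebra.Ring.NegOnePow
import Pool.Agent.MP_a31471_co.Bounds

/-!
Labellings with at most four active positions have negative sign; the main upper bound.
-/

set_option autoImplicit false

namespace Pool.Agent.MP_a31471_co

open Finset

def lphi (X L : Fin 9) : ℤ := lh X * lr L - lr X * lh L

def Two (a b c d : ℤ) : Prop := a ≠ 0 ∧ a + b = 0 ∧ c = 0 ∧ d = 0

instance (a b c d : ℤ) : Decidable (Two a b c d) := by unfold Two; infer_instance

def Pm (a b c d : ℤ) : Prop := a ≠ 0 ∧ b = a ∧ c = -a ∧ d = -a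

instance (a b c d : ℤ) : Decidable (Pm a b c d) := by unfold Pm; infer_instance

lemma key4 : ∀ A B C D : Fin 9, lr A + lr B + lr C + lr D = 0 → lh A + lh B + lh C + lh D = 0 →
    (A = 0 ∧ B = 0 ∧ C = 0 ∧ D = 0) ∨ ls A * ls B * ls C * ls D = -1 ∨
    (∃ X : Fin 9, Two (lphi X A) (lphi X B) (lphi X C) (lphi X D) ∨
      Two (lphi X A) (lphi X C) (lphi X B) (lphi X D) ∨
      Two (lphi X A) (lphi X D) (lphi X B) (lphi X C) ∨
      Two (lphi X B) (lphi X C) (lphi X A) (lphi X D) ∨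
      Two (lphi X B) (lphi X D) (lphi X A) (lphi X C) ∨
      Two (lphi X C) (lphi X D) (lphi X A) (lphi X B)) ∨
    Pm (lr A) (lr B) (lr C) (lr D) ∨ Pm (lr A) (lr C) (lr B) (lr D) ∨
      Pm (lr A) (lr D) (lr B) (lr C) := by
  decide +kernel

lemma Two.false {a b c d p q : ℤ} (h : Two a b c d) (r s : ℤ) (hpq : p ≠ q)
    (e : a * p + b * q + c * r + d * s = 0) : False := by
  obtain ⟨h1, h2, h3, h4⟩ := h
  have : a * (p - q) = 0 := by linear_combination e - q * h2 - r * h3 - s * h4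
  exact hpq (sub_eq_zero.1 ((mul_eq_zero.1 this).resolve_left h1))

lemma Pm.false {a b c d p r s : ℤ} (h : Pm a b c d) (q : ℤ) (hpr : p ≠ r) (hps : p ≠ s)
    (e1 : a * p + b * q + c * r + d * s = 0)
    (e2 : a * p ^ 2 + b * q ^ 2 + c * r ^ 2 + d * s ^ 2 = 0) : False := by
  obtain ⟨h1, rfl, rfl, rfl⟩ := h
  have f1 : p + q - r - s = 0 := mul_left_cancel₀ h1 (by linear_combination e1)
  have f2 : p ^ 2 + q ^ 2 - r ^ 2 - s ^ 2 = 0 := mul_left_cancel₀ h1 (by linear_combination e2)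
  have : 2 * ((p - r) * (p - s)) = 0 := by
    linear_combination f2 + (p - q - r - s) * f1
  rcases mul_eq_zero.1 ((mul_eq_zero.1 this).resolve_left (by norm_num)) with h | h
  · exact hpr (sub_eq_zero.1 h)
  · exact hps (sub_eq_zero.1 h)

lemma off_eq_zero {k n : ℕ} (σ : Fin k → Fin 9) (p : Fin n → Fin k)
    (h : ∀ i, σ i ≠ 0 → i ∈ univ.image p) (i : Fin k) : off σ p i = 0 := by
  unfold off
  split_ifs with hi
  · rfl
  · by_contra h0
    exact hi (h i h0)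

lemma prod_wt_nonpos {k : ℕ} (hk : 4 ≤ k) (σ : Fin k → Fin 9) (hv : Valid σ) (h0 : σ ≠ 0)
    (h4 : (univ.filter (fun i => σ i ≠ 0)).card ≤ 4) (b : Fin k → ℝ) (hb : ∀ i, 0 ≤ b i) :
    ∏ i, wt (b i) (σ i) ≤ 0 := by
  obtain ⟨U, hU1, -, hU3⟩ := Finset.exists_subsuperset_card_eq
    (subset_univ (univ.filter (fun i => σ i ≠ 0))) h4 (by simpa using hk)
  set p : Fin 4 → Fin k := fun j => U.orderEmbOfFin hU3 j with hp
  have hpi : Function.Injective p := (U.orderEmbOfFin hU3).injective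
  have hr : ∀ i, σ i ≠ 0 → i ∈ univ.image p := by
    intro i hi
    have : i ∈ U := hU1 (mem_filter.2 ⟨mem_univ _, hi⟩)
    rw [← mem_coe, ← Finset.range_orderEmbOfFin U hU3] at this
    obtain ⟨j, hj⟩ := this
    exact mem_image.2 ⟨j, mem_univ _, hj⟩
  have hz := off_eq_zero σ p hr
  have hsum : ∀ F : Fin 9 → Fin k → ℤ, (∀ i, F 0 i = 0) → ∑ i, F (σ i) i
      = F (σ (p 0)) (p 0) + F (σ (p 1)) (p 1) + F (σ (p 2)) (p 2) + F (σ (p 3)) (p 3) := by
    intro F hF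
    rw [sum_off σ p hpi F hF, Fin.sum_univ_four]
    simp [hz, hF]
  obtain ⟨v0, v1, v2, v3, v4⟩ := hv
  rw [hsum (fun L _ => lr L) (by simp)] at v0
  rw [hsum (fun L i => lr L * ((i : ℕ) : ℤ)) (by simp)] at v1
  rw [hsum (fun L i => lr L * ((i : ℕ) : ℤ) ^ 2) (by simp)] at v2
  rw [hsum (fun L _ => lh L) (by simp)] at v3
  rw [hsum (fun L i => lh L * ((i : ℕ) : ℤ)) (by simp)] at v4
  have hne : ∀ a c : Fin 4, a ≠ c → ((p a : ℕ) : ℤ) ≠ ((p c : ℕ) : ℤ) :=
    fun a c hac h => hac (hpi (Fin.ext (by exact_mod_cast h)))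
  have hsign : ls (σ (p 0)) * ls (σ (p 1)) * ls (σ (p 2)) * ls (σ (p 3)) = -1 := by
    rcases key4 _ _ _ _ v0 v3 with h | h | ⟨X, h⟩ | h | h | h
    · exfalso
      apply h0
      funext i
      by_contra hi
      obtain ⟨j, -, rfl⟩ := mem_image.1 (hr i hi)
      fin_cases j
      · exact hi h.1
      · exact hi h.2.1
      · exact hi h.2.2.1
      · exact hi h.2.2.2
    · exact h
    · exfalso
      have e : lphi X (σ (p 0)) * ((p 0 : ℕ) : ℤ) + lphi X (σ (p 1)) * ((p 1 : ℕ) : ℤ)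
          + lphi X (σ (p 2)) * ((p 2 : ℕ) : ℤ) + lphi X (σ (p 3)) * ((p 3 : ℕ) : ℤ) = 0 := by
        unfold lphi
        linear_combination lh X * v1 - lr X * v4
      rcases h with h | h | h | h | h | h
      · exact h.false (p 2 : ℕ) (p 3 : ℕ) (hne 0 1 (by decide)) (by linear_combination e)
      · exact h.false (p 1 : ℕ) (p 3 : ℕ) (hne 0 2 (by decide)) (by linear_combination e)
      · exact h.false (p 1 : ℕ) (p 2 : ℕ) (hne 0 3 (by decide)) (by linear_combination e)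
      · exact h.false (p 0 : ℕ) (p 3 : ℕ) (hne 1 2 (by decide)) (by linear_combination e)
      · exact h.false (p 0 : ℕ) (p 2 : ℕ) (hne 1 3 (by decide)) (by linear_combination e)
      · exact h.false (p 0 : ℕ) (p 1 : ℕ) (hne 2 3 (by decide)) (by linear_combination e)
    · exact (h.false (p 1 : ℕ) (hne 0 2 (by decide)) (hne 0 3 (by decide))
        (by linear_combination v1) (by linear_combination v2)).elim
    · exact (h.false (p 2 : ℕ) (hne 0 1 (by decide)) (hne 0 3 (by decide))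
        (by linear_combination v1) (by linear_combination v2)).elim
    · exact (h.false (p 3 : ℕ) (hne 0 1 (by decide)) (hne 0 2 (by decide))
        (by linear_combination v1) (by linear_combination v2)).elim
  have hw : ∀ (x : ℝ) (L : Fin 9), wt x L = (if L = 0 then 1 else x / 8) * (ls L : ℝ) := by
    intro x L
    unfold wt
    split_ifs with h
    · simp [h]
    · ring
  simp only [hw]
  rw [Finset.prod_mul_distrib, prod_off σ p hpi (fun L _ => (ls L : ℝ)) (by simp),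
    Fin.prod_univ_four]
  have h1 : (ls (σ (p 0)) : ℝ) * ls (σ (p 1)) * ls (σ (p 2)) * ls (σ (p 3)) = -1 := by
    exact_mod_cast hsign
  rw [h1]
  simp only [hz, ls_zero, Int.cast_one, prod_const_one, mul_neg, mul_one, neg_nonpos]
  exact prod_nonneg fun i _ => by
    have := hb i
    split_ifs <;> positivity

/-- Four-term progressions of positions. -/
def Q4 (k : ℕ) : Finset (Fin 4 → Fin k) :=
  univ.filter (fun p => (p 0 : ℕ) < p 1 ∧ (p 0 : ℕ) + p 2 = 2 * p 1 ∧ (p 1 : ℕ) + p 3 = 2 * p 2)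

lemma Q4_inj {k : ℕ} {p : Fin 4 → Fin k} (hp : p ∈ Q4 k) : Function.Injective p := by
  obtain ⟨h1, h2, h3⟩ := (mem_filter.1 hp).2
  intro i j h
  have h' : (p i : ℕ) = p j := congrArg _ h
  fin_cases i <;> fin_cases j <;> simp_all <;> omega

def lab4 : Fin 4 → Fin 9 := ![1, 6, 3, 8]

noncomputable def sp {k : ℕ} (p : Fin 4 → Fin k) : Fin k → Fin 9 := Function.extend p lab4 0

lemma sp_apply {k : ℕ} {p : Fin 4 → Fin k} (hp : p ∈ Q4 k) (j : Fin 4) : sp p (p j) = lab4 j :=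
  (Q4_inj hp).extend_apply _ _ _

lemma sp_mem {k : ℕ} (p : Fin 4 → Fin k) (i : Fin k) (h : sp p i ≠ 0) : i ∈ univ.image p := by
  by_contra hi
  apply h
  unfold sp
  rw [Function.extend_apply' _ _ _ (fun ⟨j, hj⟩ => hi (mem_image.2 ⟨j, mem_univ _, hj⟩))]
  rfl

lemma sp_valid {k : ℕ} {p : Fin 4 → Fin k} (hp : p ∈ Q4 k) : Valid (sp p) := by
  have hz := off_eq_zero (sp p) p (sp_mem p)
  have hsum : ∀ F : Fin 9 → Fin k → ℤ, (∀ i, F 0 i = 0) → ∑ i, F (sp p i) i
      = F 1 (p 0) + F 6 (p 1) + F 3 (p 2) + F 8 (p 3) := by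
    intro F hF
    rw [sum_off (sp p) p (Q4_inj hp) F hF, Fin.sum_univ_four]
    simp only [hz, hF, sp_apply hp, sum_const_zero, zero_add]
    rfl
  obtain ⟨h1, h2, h3⟩ := (mem_filter.1 hp).2
  have h2' : ((p 2 : ℕ) : ℤ) = 2 * ((p 1 : ℕ) : ℤ) - ((p 0 : ℕ) : ℤ) := by omega
  have h3' : ((p 3 : ℕ) : ℤ) = 3 * ((p 1 : ℕ) : ℤ) - 2 * ((p 0 : ℕ) : ℤ) := by omega
  have r1 : lr 1 = 1 := rfl
  have r6 : lr 6 = -3 := rfl
  have r3 : lr 3 = 3 := rfl
  have r8 : lr 8 = -1 := rfl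
  have g1 : lh 1 = 1 := rfl
  have g6 : lh 6 = -2 := rfl
  have g3 : lh 3 = 1 := rfl
  have g8 : lh 8 = 0 := rfl
  refine ⟨?_, ?_, ?_, ?_, ?_⟩
  · rw [hsum (fun L _ => lr L) (by simp)]
    simp only [r1, r6, r3, r8]; ring
  · rw [hsum (fun L i => lr L * ((i : ℕ) : ℤ)) (by simp)]
    simp only [r1, r6, r3, r8, h2', h3']; ring
  · rw [hsum (fun L i => lr L * ((i : ℕ) : ℤ) ^ 2) (by simp)]
    simp only [r1, r6, r3, r8, h2', h3']; ring
  · rw [hsum (fun L _ => lh L) (by simp)]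
    simp only [g1, g6, g3, g8]; ring
  · rw [hsum (fun L i => lh L * ((i : ℕ) : ℤ)) (by simp)]
    simp only [g1, g6, g3, g8, h2', h3']; ring

lemma sp_wt {k : ℕ} {p : Fin 4 → Fin k} (hp : p ∈ Q4 k) (b : Fin k → ℝ) :
    ∏ i, wt (b i) (sp p i) = -((∏ j, b (p j)) / 4096) := by
  have hz := off_eq_zero (sp p) p (sp_mem p)
  rw [prod_off (sp p) p (Q4_inj hp) (fun L i => wt (b i) L) (by simp [wt])]
  simp only [hz, sp_apply hp, Fin.prod_univ_four]
  have s1 : ls 1 = 1 := rfl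
  have s6 : ls 6 = 1 := rfl
  have s3 : ls 3 = 1 := rfl
  have s8 : ls 8 = -1 := rfl
  have l0 : lab4 0 = 1 := rfl
  have l1 : lab4 1 = 6 := rfl
  have l2 : lab4 2 = 3 := rfl
  have l3 : lab4 3 = 8 := rfl
  simp only [wt, l0, l1, l2, l3, s1, s6, s3, s8, if_true, prod_const_one]
  rw [if_neg (by decide), if_neg (by decide), if_neg (by decide), if_neg (by decide)]
  push_cast
  ring

lemma sp_injOn (k : ℕ) : Set.InjOn (sp (k := k)) (Q4 k) := by
  intro p hp q hq h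
  funext j
  have h1 : sp q (p j) = lab4 j := by rw [← h]; exact sp_apply hp j
  have h2 : lab4 j ≠ 0 := (by decide : ∀ j, lab4 j ≠ 0) j
  obtain ⟨j', -, hj'⟩ := mem_image.1 (sp_mem q (p j) (h1 ▸ h2))
  rw [← hj', sp_apply hq] at h1
  have h3 : ∀ a c, lab4 a = lab4 c → a = c := by decide
  rw [← hj', h3 _ _ h1]

lemma corr_le_main {k : ℕ} (hk : 4 ≤ k) {ρ J : ℝ} (hρ : 0 ≤ ρ) (hJ2 : 2 ≤ J)
    (hJ : 8 * 27 ^ 8 * (k : ℝ) ^ 2 ≤ J ^ 3) (b : Fin k → ℝ) (hb0 : ∀ i, 0 ≤ b i)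
    (hb : ∀ i, b i ≤ ρ) :
    corr b ≤ 1 + J * ρ ^ 3 * (1 + ρ) ^ k - ∑ p ∈ Q4 k, (∏ j, b (p j)) / 4096 := by
  classical
  rw [corr_eq, ← Finset.sum_filter_add_sum_filter_not _
    (fun σ : Fin k → Fin 9 => 5 ≤ (univ.filter (fun i => σ i ≠ 0)).card)]
  have h1 := sum_five_le hρ hJ2 hJ (((univ.filter (Valid (k := k))).erase 0).filter
    (fun σ : Fin k → Fin 9 => 5 ≤ (univ.filter (fun i => σ i ≠ 0)).card))
    (fun σ hσ => ⟨(mem_filter.1 (mem_erase.1 (mem_filter.1 hσ).1).2).2, (mem_filter.1 hσ).2⟩)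
  have h2 := Finset.sum_le_sum (s := ((univ.filter (Valid (k := k))).erase 0).filter
    (fun σ : Fin k → Fin 9 => 5 ≤ (univ.filter (fun i => σ i ≠ 0)).card)) fun σ _ =>
    (le_abs_self _).trans (abs_prod_wt_le b (fun i => by rw [abs_of_nonneg (hb0 i)]; exact hb i) σ)
  have h3 : ∑ σ ∈ (Q4 k).image sp, -∏ i, wt (b i) (σ i)
      ≤ ∑ σ ∈ ((univ.filter (Valid (k := k))).erase 0).filter
        (fun σ : Fin k → Fin 9 => ¬ 5 ≤ (univ.filter (fun i => σ i ≠ 0)).card),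
          -∏ i, wt (b i) (σ i) := by
    refine Finset.sum_le_sum_of_subset_of_nonneg ?_ ?_
    · intro σ hσ
      obtain ⟨p, hp, rfl⟩ := mem_image.1 hσ
      refine mem_filter.2 ⟨mem_erase.2 ⟨?_, mem_filter.2 ⟨mem_univ _, sp_valid hp⟩⟩, ?_⟩
      · intro h
        have := sp_apply hp 0
        rw [h] at this
        exact (by decide : lab4 0 ≠ 0) this.symm
      · have : (univ.filter (fun i => sp p i ≠ 0)).card ≤ (univ.image p).card :=
          card_le_card fun i hi => sp_mem p i (mem_filter.1 hi).2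
        have h4 : (univ.image p).card ≤ 4 := card_image_le.trans (by simp)
        omega
    · intro σ hσ _
      obtain ⟨h4, h5⟩ := mem_filter.1 hσ
      obtain ⟨h6, h7⟩ := mem_erase.1 h4
      exact neg_nonneg.2 (prod_wt_nonpos hk σ (mem_filter.1 h7).2 h6 (by omega) b hb0)
  rw [Finset.sum_image (sp_injOn k), Finset.sum_neg_distrib, Finset.sum_neg_distrib,
    Finset.sum_congr rfl (fun p hp => sp_wt hp b), Finset.sum_neg_distrib] at h3
  linarith

lemma corr_neg {k : ℕ} (b : Fin k → ℝ) : corr (fun i => -b i) = corr b := by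
  unfold corr
  refine Finset.sum_congr rfl fun σ hσ => ?_
  have hv := (mem_filter.1 hσ).2.1
  have hw : ∀ (x : ℝ) (L : Fin 9), wt (-x) L = ((lr L).negOnePow : ℤ) * wt x L := by
    intro x L
    have : (L = 0 ∧ ((lr L).negOnePow : ℤ) = 1) ∨ (L ≠ 0 ∧ ((lr L).negOnePow : ℤ) = -1) := by
      revert L; decide
    unfold wt
    rcases this with ⟨h1, h2⟩ | ⟨h1, h2⟩
    · simp [h1]
    · rw [if_neg h1, if_neg h1, h2]; push_cast; ring
  simp only [hw]
  rw [Finset.prod_mul_distrib]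
  have : ∀ s : Finset (Fin k), ∏ i ∈ s, ((((lr (σ i)).negOnePow : ℤ)) : ℝ)
      = (((∑ i ∈ s, lr (σ i)).negOnePow : ℤ) : ℝ) := by
    intro s
    induction s using Finset.induction_on with
    | empty => simp
    | insert a s ha ih => rw [prod_insert ha, sum_insert ha, ih, Int.negOnePow_add]; push_cast; ring
  rw [this, hv]
  simp

end Pool.Agent.MP_a31471_co
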