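import Mathlib.Algebra.Order.Archimedean.Real.Hom
import Mathlib.Algebra.Order.Star.Real
import Mathlib.Algebra.Ring.IsFormallyReal
import Mathlib.Analysis.CStarAlgebra.Classes
import Mathlib.Analysis.Complex.ExponentialBounds
import Mathlib.Analysis.SpecialFunctions.Complex.CircleAddChar
import Mathlib.RingTheory.PiTensorProduct
import Mathlib.RingTheory.SimpleRing.Principal
import Pool.Agent.MP_a31471_co.Four

-- ======== part 0: formerly Pool.Agent.MP_a31471_co.Conv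
section MrgPart0

/-!
Convolution operators on functions of `k` integer variables and the replacement argument.
-/

set_option autoImplicit false

namespace Pool.Agent.MP_a31471_co

open Finset

def sg (b : Bool) : ℤ := if b then 1 else -1

/-- Convolution with a weight on sign vectors. -/
noncomputable def Conv {k : ℕ} (p : (Fin k → Bool) → ℝ) : Module.End ℝ ((Fin k → ℤ) → ℝ) where
  toFun F m := ∑ w, p w * F (fun i => m i + sg (w i))
  map_add' F G := by
    funext m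
    simp [mul_add, Finset.sum_add_distrib]
  map_smul' c F := by
    funext m
    simp [Finset.mul_sum, mul_left_comm]

lemma Conv_apply {k : ℕ} (p : (Fin k → Bool) → ℝ) (F : (Fin k → ℤ) → ℝ) (m : Fin k → ℤ) :
    Conv p F m = ∑ w, p w * F (fun i => m i + sg (w i)) := rfl

lemma Conv_comm {k : ℕ} (p q : (Fin k → Bool) → ℝ) : Commute (Conv p) (Conv q) := by
  refine LinearMap.ext fun F => funext fun m => ?_
  simp only [Module.End.mul_apply, Conv_apply, Finset.mul_sum]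
  rw [Finset.sum_comm]
  refine Finset.sum_congr rfl fun w _ => Finset.sum_congr rfl fun v _ => ?_
  simp only [add_right_comm _ (sg (v _)) (sg (w _))]
  ring

lemma Conv_mono {k : ℕ} {p : (Fin k → Bool) → ℝ} (hp : ∀ w, 0 ≤ p w) : Monotone (Conv p) :=
  fun _ _ h _ => Finset.sum_le_sum fun w _ => mul_le_mul_of_nonneg_left (h _) (hp w)

lemma pow_mono {V : Type*} [AddCommGroup V] [Module ℝ V] [Preorder V] {P : Module.End ℝ V}
    (hP : Monotone P) (j : ℕ) : Monotone (P ^ j) := by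
  induction j with
  | zero => exact fun _ _ h => h
  | succ j ih =>
    rw [pow_succ]
    exact fun _ _ h => ih (hP h)

noncomputable def uu (ψ : ℤ → ℝ) (m : ℤ) : ℝ := (ψ (m + 1) + ψ (m - 1)) / 2

noncomputable def bb (ψ : ℤ → ℝ) (m : ℤ) : ℝ := (ψ (m + 1) - ψ (m - 1)) / (ψ (m + 1) + ψ (m - 1))

noncomputable def Pr (k : ℕ) (ψ : ℤ → ℝ) (m : Fin k → ℤ) : ℝ := ∏ i, ψ (m i)

noncomputable def unif (k : ℕ) : (Fin k → Bool) → ℝ := fun _ => (1 / 2) ^ k

lemma unif_nonneg (k : ℕ) (w : Fin k → Bool) : 0 ≤ unif k w := by unfold unif; positivity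

lemma prod_add_eq {k : ℕ} (f : Fin k → Bool → ℝ) :
    ∑ w : Fin k → Bool, ∏ i, f i (w i) = ∏ i, (f i true + f i false) := by
  have h := Finset.prod_univ_sum (fun _ : Fin k => (univ : Finset Bool)) f
  rw [Fintype.piFinset_univ] at h
  rw [← h]
  simp

lemma unif_Pr (k : ℕ) (ψ : ℤ → ℝ) : Conv (unif k) (Pr k ψ) = Pr k (uu ψ) := by
  funext m
  have h := prod_add_eq (fun i b => ψ (m i + sg b) / 2)
  simp only [Finset.prod_div_distrib, Finset.prod_const, card_univ, Fintype.card_fin] at h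
  simp only [Conv_apply, unif, Pr, uu]
  refine Eq.trans (Finset.sum_congr rfl fun w _ => ?_) (h.trans ?_)
  · rw [one_div, inv_pow]; ring
  · refine Finset.prod_congr rfl fun i _ => ?_
    simp only [sg, if_true, Bool.false_eq_true, if_false, sub_eq_add_neg]
    ring

lemma unif_pow_Pr (k : ℕ) (l : ℕ) (ψ : ℤ → ℝ) :
    (Conv (unif k) ^ l) (Pr k ψ) = Pr k (uu^[l] ψ) := by
  induction l generalizing ψ with
  | zero => rfl
  | succ l ih => rw [pow_succ, Module.End.mul_apply, unif_Pr, ih, Function.iterate_succ_apply]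

lemma Conv_Pr {k : ℕ} {p : (Fin k → Bool) → ℝ}
    (hp : ∀ b : Fin k → ℝ, ∑ w, p w * ∏ i, (1 + b i * sg (w i)) = corr b) (ψ : ℤ → ℝ)
    (hψ : ∀ m, 0 < ψ m) (m : Fin k → ℤ) :
    Conv p (Pr k ψ) m = Pr k (uu ψ) m * corr (fun i => bb ψ (m i)) := by
  rw [← hp, Conv_apply, Finset.mul_sum]
  refine Finset.sum_congr rfl fun w _ => ?_
  rw [mul_left_comm]
  congr 1
  unfold Pr
  rw [← Finset.prod_mul_distrib]
  refine Finset.prod_congr rfl fun i _ => ?_
  have h1 := hψ (m i + 1)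
  have h2 := hψ (m i - 1)
  beta_reduce
  generalize w i = c
  unfold uu bb sg
  cases c
  · simp only [Bool.false_eq_true, if_false, ← sub_eq_add_neg]
    push_cast
    field_simp
    ring
  · simp only [if_true]
    push_cast
    field_simp
    ring

/-- Positive functions with small relative increments. -/
def LL (ρ : ℝ) (ψ : ℤ → ℝ) : Prop :=
  ∀ m, 0 < ψ m ∧ |ψ (m + 1) - ψ (m - 1)| ≤ ρ * (ψ (m + 1) + ψ (m - 1))

lemma LL.add {ρ : ℝ} {ψ φ : ℤ → ℝ} (h1 : LL ρ ψ) (h2 : LL ρ φ) (a c : ℝ) (ha : 0 < a)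
    (hc : 0 < c) (s t : ℤ) : LL ρ (fun m => a * ψ (m + s) + c * φ (m + t)) := by
  intro m
  have e1 := h1 (m + s)
  have e2 := h2 (m + t)
  refine ⟨by have := e1.1; have := e2.1; positivity, ?_⟩
  simp only [add_right_comm m 1, sub_add_eq_add_sub]
  have f1 := abs_le.1 e1.2
  have f2 := abs_le.1 e2.2
  rw [abs_le]
  constructor <;> nlinarith [f1.1, f1.2, f2.1, f2.2]

lemma LL.uu {ρ : ℝ} {ψ : ℤ → ℝ} (h : LL ρ ψ) : LL ρ (uu ψ) := by
  have := h.add h (1 / 2) (1 / 2) (by norm_num) (by norm_num) 1 (-1)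
  convert this using 2 with m
  unfold Pool.Agent.MP_a31471_co.uu
  rw [sub_eq_add_neg]
  ring

lemma LL.abs_bb {ρ : ℝ} {ψ : ℤ → ℝ} (h : LL ρ ψ) (m : ℤ) : |bb ψ m| ≤ ρ := by
  have h1 := (h (m + 1)).1
  have h2 := (h (m - 1)).1
  unfold bb
  rw [abs_div, abs_of_pos (add_pos h1 h2), div_le_iff₀ (add_pos h1 h2)]
  exact (h m).2

lemma Pr_pos {k : ℕ} {ψ : ℤ → ℝ} (h : ∀ m, 0 < ψ m) (m : Fin k → ℤ) : 0 < Pr k ψ m :=
  prod_pos fun _ _ => h _

lemma Conv_pow_le {k : ℕ} {p : (Fin k → Bool) → ℝ} (hp0 : ∀ w, 0 ≤ p w)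
    (hp : ∀ b : Fin k → ℝ, ∑ w, p w * ∏ i, (1 + b i * sg (w i)) = corr b) {ρ : ℝ} (hρ : 0 ≤ ρ)
    (j : ℕ) (ψ : ℤ → ℝ) (hψ : LL ρ ψ) :
    (Conv p ^ j) (Pr k ψ) ≤ (1 + 2 * ρ ^ 2 * (1 + ρ) ^ k) ^ j • Pr k (uu^[j] ψ) := by
  induction j generalizing ψ with
  | zero => simp
  | succ j ih =>
    have h1 : Conv p (Pr k ψ) ≤ (1 + 2 * ρ ^ 2 * (1 + ρ) ^ k) • Pr k (uu ψ) := by
      intro m
      rw [Conv_Pr hp ψ (fun m => (hψ m).1), Pi.smul_apply, smul_eq_mul, mul_comm]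
      exact mul_le_mul_of_nonneg_right (corr_le hρ _ fun i => hψ.abs_bb _)
        (Pr_pos (fun m => (hψ.uu m).1) m).le
    rw [pow_succ, Module.End.mul_apply]
    refine (pow_mono (Conv_mono hp0) j h1).trans ?_
    rw [map_smul, Function.iterate_succ_apply, pow_succ' _ j, mul_smul]
    exact smul_le_smul_of_nonneg_left (ih _ hψ.uu) (by positivity)

/-- The replacement argument. -/
lemma replace {k : ℕ} {p : (Fin k → Bool) → ℝ} (hp0 : ∀ w, 0 ≤ p w) (h ψ : ℤ → ℝ) (θ κ B : ℝ)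
    (hθ0 : 0 ≤ θ) (hθ1 : θ ≤ 1) (hκ : 0 ≤ κ) (hB0 : 0 ≤ B) (T : ℕ)
    (hh : ∀ l, uu^[l] h 0 = 1)
    (step : Conv p (Pr k h) ≤ θ • Pr k (uu h) + κ • Pr k ψ)
    (hB : ∀ l j, l + j ≤ T → (Conv (unif k) ^ l) ((Conv p ^ j) (Pr k ψ)) 0 ≤ B) (j : ℕ) :
    ∀ l, l + j ≤ T → (Conv (unif k) ^ l) ((Conv p ^ j) (Pr k h)) 0 ≤ θ ^ j + j * (κ * B) := by
  induction j with
  | zero =>
    intro l _
    simp [unif_pow_Pr, Pr, hh]
  | succ j ih =>
    intro l hl
    have h1 := pow_mono (Conv_mono (unif_nonneg k)) l (pow_mono (Conv_mono hp0) j step) 0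
    have h2 : (Conv (unif k) ^ l) ((Conv p ^ j) (Pr k (uu h)))
        = (Conv (unif k) ^ (l + 1)) ((Conv p ^ j) (Pr k h)) := by
      rw [← unif_Pr, pow_succ, Module.End.mul_apply, ← Module.End.mul_apply (Conv p ^ j),
        ((Conv_comm p (unif k)).pow_left j).eq, Module.End.mul_apply]
    rw [map_add, map_add, map_smul, map_smul, map_smul, map_smul, h2, Pi.add_apply, Pi.smul_apply,
      Pi.smul_apply, smul_eq_mul, smul_eq_mul] at h1
    rw [pow_succ, Module.End.mul_apply]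
    have h3 := ih (l + 1) (by omega)
    have h4 := hB l j (by omega)
    have h5 : 0 ≤ (j : ℝ) * (κ * B) := by positivity
    push_cast
    rw [pow_succ]
    nlinarith [mul_le_mul_of_nonneg_left h3 hθ0, mul_le_mul_of_nonneg_left h4 hκ,
      mul_le_mul_of_nonneg_right hθ1 h5]

end Pool.Agent.MP_a31471_co

end MrgPart0

-- ======== part 1: formerly Pool.Agent.MP_a31471_co.Step
section MrgPart1

/-!
The saturating function and the one-step gain.
-/

set_option autoImplicit false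

namespace Pool.Agent.MP_a31471_co

open Finset

noncomputable def hh (a : ℝ) (m : ℤ) : ℝ := 2 * a ^ m / (1 + a ^ m)

lemma hh_pos {a : ℝ} (ha : 0 < a) (m : ℤ) : 0 < hh a m := by unfold hh; positivity

lemma hh_neg {a : ℝ} (ha : 0 < a) (m : ℤ) : hh a m + hh a (-m) = 2 := by
  unfold hh
  have : 0 < a ^ m := by positivity
  rw [zpow_neg]
  field_simp
  ring

lemma hh_le {a : ℝ} (ha : 0 < a) (m : ℤ) : hh a m ≤ 2 := by
  have := hh_neg ha m
  have := hh_pos ha (-m)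
  linarith

lemma uu_iter_neg {ψ : ℤ → ℝ} (h : ∀ m, ψ m + ψ (-m) = 2) (l : ℕ) :
    ∀ m, uu^[l] ψ m + uu^[l] ψ (-m) = 2 := by
  induction l with
  | zero => exact h
  | succ l ih =>
    intro m
    rw [Function.iterate_succ_apply']
    have h1 := ih (m + 1)
    have h2 := ih (m - 1)
    rw [show -(m + 1) = -m - 1 by ring] at h1
    rw [show -(m - 1) = -m + 1 by ring] at h2
    simp only [uu]
    linarith

lemma uu_iter_hh {a : ℝ} (ha : 0 < a) (l : ℕ) : uu^[l] (hh a) 0 = 1 := by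
  have := uu_iter_neg (hh_neg ha) l 0
  rw [neg_zero] at this
  linarith

lemma bb_hh {a : ℝ} (ha : 0 < a) (m : ℤ) :
    bb (hh a) m = (a ^ 2 - 1) / (a ^ 2 + 1 + 2 * a * a ^ m) := by
  unfold bb hh
  have : 0 < a ^ m := by positivity
  rw [zpow_add_one₀ ha.ne', zpow_sub_one₀ ha.ne']
  field_simp
  ring

lemma LL_of_bb {ρ : ℝ} {ψ : ℤ → ℝ} (h0 : ∀ m, 0 < ψ m) (h : ∀ m, |bb ψ m| ≤ ρ) : LL ρ ψ := by
  intro m
  refine ⟨h0 m, ?_⟩
  have h1 := add_pos (h0 (m + 1)) (h0 (m - 1))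
  have := h m
  unfold bb at this
  rwa [abs_div, abs_of_pos h1, div_le_iff₀ h1] at this

lemma bb_hh_bounds {ε : ℝ} (h0 : 0 < ε) (h1 : ε ≤ 1) (m : ℤ) :
    0 ≤ bb (hh (1 + ε)) m ∧ bb (hh (1 + ε)) m ≤ ε ∧
      ((1 + ε) ^ m ≤ 1000 → ε / 2003 ≤ bb (hh (1 + ε)) m) := by
  have ha : 0 < 1 + ε := by linarith
  have hx : 0 < (1 + ε) ^ m := by positivity
  rw [bb_hh ha]
  generalize (1 + ε) ^ m = x at hx
  have hd : 0 < (1 + ε) ^ 2 + 1 + 2 * (1 + ε) * x := by positivity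
  refine ⟨div_nonneg (by nlinarith) hd.le, ?_, fun hx1 => ?_⟩
  · rw [div_le_iff₀ hd]
    have : 0 ≤ ε * (2 * (1 + ε) * x) := by positivity
    nlinarith [pow_pos h0 3]
  · rw [div_le_div_iff₀ (by norm_num) hd]
    have h2 : (1 + ε) ^ 2 + 1 + 2 * (1 + ε) * x ≤ 4005 := by nlinarith
    nlinarith [mul_le_mul_of_nonneg_left h2 h0.le]

lemma LL_hh {ε : ℝ} (h0 : 0 < ε) (h1 : ε ≤ 1) : LL ε (hh (1 + ε)) :=
  LL_of_bb (hh_pos (by linarith)) fun m => by
    rw [abs_of_nonneg (bb_hh_bounds h0 h1 m).1]; exact (bb_hh_bounds h0 h1 m).2.1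

lemma LL_zpow {ε : ℝ} (h0 : 0 < ε) : LL ε (fun m => (1 + ε) ^ m) := by
  intro m
  have ha : 0 < 1 + ε := by linarith
  have hx : 0 < (1 + ε) ^ (m - 1) := by positivity
  refine ⟨by positivity, ?_⟩
  have e : (1 + ε) ^ (m + 1) = (1 + ε) ^ (m - 1) * (1 + ε) ^ 2 := by
    rw [← zpow_natCast, ← zpow_add₀ ha.ne']
    congr 1
    push_cast
    ring
  simp only [e]
  generalize (1 + ε) ^ (m - 1) = x at hx
  rw [abs_le]
  constructor
  · nlinarith [mul_pos hx h0, mul_pos hx (pow_pos h0 2), mul_pos hx (pow_pos h0 3)]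
  · nlinarith [mul_pos hx h0, mul_pos hx (pow_pos h0 2), mul_pos hx (pow_pos h0 3)]

/-- The comparison function. -/
noncomputable def ps (a : ℝ) (m : ℤ) : ℝ := uu (hh a) m + 1 / 500 * a ^ m

lemma LL_ps {ε : ℝ} (h0 : 0 < ε) (h1 : ε ≤ 1) : LL ε (ps (1 + ε)) := by
  have := (LL_hh h0 h1).uu.add (LL_zpow h0) 1 (1 / 500) one_pos (by norm_num) 0 0
  convert this using 2 with m
  simp [ps]

lemma uu_iter_ps {a : ℝ} (ha : 0 < a) (l : ℕ) (m : ℤ) :
    uu^[l] (ps a) m = uu^[l + 1] (hh a) m + 1 / 500 * ((a + a⁻¹) / 2) ^ l * a ^ m := by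
  induction l generalizing m with
  | zero => simp [ps]
  | succ l ih =>
    rw [Function.iterate_succ_apply', Function.iterate_succ_apply' uu (l + 1)]
    have e1 : uu (uu^[l] (ps a)) m = (uu^[l] (ps a) (m + 1) + uu^[l] (ps a) (m - 1)) / 2 := rfl
    have e2 : uu (uu^[l + 1] (hh a)) m
        = (uu^[l + 1] (hh a) (m + 1) + uu^[l + 1] (hh a) (m - 1)) / 2 := rfl
    rw [e1, e2, ih, ih, zpow_add_one₀ ha.ne', zpow_sub_one₀ ha.ne']
    ring

lemma uu_iter_ps_le {ε : ℝ} (h0 : 0 < ε) {T : ℕ} (hT : T * ε ^ 2 ≤ 1) {l : ℕ} (hl : l ≤ T) :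
    uu^[l] (ps (1 + ε)) 0 ≤ 1 + 1 / 250 := by
  have ha : 0 < 1 + ε := by linarith
  rw [uu_iter_ps ha, uu_iter_hh ha, zpow_zero, mul_one]
  have h1 : (1 + ε + (1 + ε)⁻¹) / 2 ≤ Real.exp (ε ^ 2 / 2) := by
    refine le_trans ?_ (Real.add_one_le_exp _)
    have : (1 + ε)⁻¹ ≤ 1 - ε + ε ^ 2 := by
      rw [inv_le_iff_one_le_mul₀ ha]
      nlinarith [pow_pos h0 3]
    linarith
  have h2 : ((1 + ε + (1 + ε)⁻¹) / 2) ^ l ≤ Real.exp (ε ^ 2 / 2) ^ l :=
    pow_le_pow_left₀ (by positivity) h1 l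
  rw [← Real.exp_nat_mul] at h2
  have h3 : (l : ℝ) * (ε ^ 2 / 2) ≤ 1 / 2 := by
    have : (l : ℝ) ≤ T := by exact_mod_cast hl
    nlinarith [sq_nonneg ε]
  have h4 : Real.exp (1 / 2) ≤ 2 := by
    have := Real.exp_one_lt_d9
    have e : Real.exp (1 / 2) * Real.exp (1 / 2) = Real.exp 1 := by rw [← Real.exp_add]; norm_num
    nlinarith [Real.exp_pos (1 / 2)]
  have h5 := (Real.exp_le_exp.2 h3).trans h4
  linarith

lemma card_Q4 {k : ℕ} (hk : 0 < k) : (k / 2) * (k / 6) ≤ (Q4 k).card := by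
  have : NeZero k := ⟨hk.ne'⟩
  have h : (range (k / 2) ×ˢ Icc 1 (k / 6)).card ≤ (Q4 k).card := by
    refine Finset.card_le_card_of_injOn
      (fun q : ℕ × ℕ => fun j : Fin 4 => Fin.ofNat k (q.1 + j * q.2)) ?_ ?_
    · intro q hq
      simp only [coe_product, coe_range, coe_Icc, Set.mem_prod, Set.mem_Iio, Set.mem_Icc] at hq
      simp only [Q4, coe_filter, mem_univ, true_and, Set.mem_ofPred_eq, Fin.val_ofNat]
      have e0 : ((0 : Fin 4) : ℕ) = 0 := rfl
      have e1 : ((1 : Fin 4) : ℕ) = 1 := rfl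
      have e2 : ((2 : Fin 4) : ℕ) = 2 := rfl
      have e3 : ((3 : Fin 4) : ℕ) = 3 := rfl
      rw [e0, e1, e2, e3, Nat.mod_eq_of_lt (by omega), Nat.mod_eq_of_lt (by omega),
        Nat.mod_eq_of_lt (by omega), Nat.mod_eq_of_lt (by omega)]
      omega
    · intro q hq q' hq' h
      simp only [coe_product, coe_range, coe_Icc, Set.mem_prod, Set.mem_Iio, Set.mem_Icc] at hq hq'
      have h0 := congrArg Fin.val (congrFun h 0)
      have h1 := congrArg Fin.val (congrFun h 1)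
      have e0 : ((0 : Fin 4) : ℕ) = 0 := rfl
      have e1 : ((1 : Fin 4) : ℕ) = 1 := rfl
      simp only [Fin.val_ofNat, e0, e1] at h0 h1
      rw [Nat.mod_eq_of_lt (by omega), Nat.mod_eq_of_lt (by omega)] at h0 h1
      exact Prod.ext (by omega) (by omega)
  simpa using h

lemma card_good {k : ℕ} (hk : 100 ≤ k) (Bad : Finset (Fin k)) (hB : 100 * Bad.card ≤ k) :
    (k : ℝ) ^ 2 / 32 ≤ ((Q4 k).filter (fun p => ∀ j, p j ∉ Bad)).card := by
  have h1 : ∀ j : Fin 4, ((Q4 k).filter (fun p => p j ∈ Bad)).card ≤ Bad.card * k := by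
    intro j
    have : ((Q4 k).filter (fun p => p j ∈ Bad)).card ≤ (Bad ×ˢ (univ : Finset (Fin k))).card := by
      refine Finset.card_le_card_of_injOn (fun p => (p j, p (j + 1))) ?_ ?_
      · intro p hp
        exact mem_coe.2 (mem_product.2 ⟨(mem_filter.1 hp).2, mem_univ _⟩)
      · intro p hp q hq h
        obtain ⟨a1, a2, a3⟩ := (mem_filter.1 (mem_filter.1 hp).1).2
        obtain ⟨b1, b2, b3⟩ := (mem_filter.1 (mem_filter.1 hq).1).2
        simp only [Prod.mk.injEq, Fin.ext_iff] at h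
        have : (p 0 : ℕ) = q 0 ∧ (p 1 : ℕ) = q 1 ∧ (p 2 : ℕ) = q 2 ∧ (p 3 : ℕ) = q 3 := by
          fin_cases j
          · have h' : (p 0 : ℕ) = q 0 ∧ (p 1 : ℕ) = q 1 := h
            omega
          · have h' : (p 1 : ℕ) = q 1 ∧ (p 2 : ℕ) = q 2 := h
            omega
          · have h' : (p 2 : ℕ) = q 2 ∧ (p 3 : ℕ) = q 3 := h
            omega
          · have h' : (p 3 : ℕ) = q 3 ∧ (p 0 : ℕ) = q 0 := h
            omega
        funext i
        fin_cases i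
        · exact Fin.ext this.1
        · exact Fin.ext this.2.1
        · exact Fin.ext this.2.2.1
        · exact Fin.ext this.2.2.2
    simpa using this
  have h2 : (Q4 k).filter (fun p => ¬ ∀ j, p j ∉ Bad)
      ⊆ univ.biUnion (fun j : Fin 4 => (Q4 k).filter (fun p => p j ∈ Bad)) := by
    intro p hp
    obtain ⟨h3, h4⟩ := mem_filter.1 hp
    push Not at h4
    obtain ⟨j, hj⟩ := h4
    exact mem_biUnion.2 ⟨j, mem_univ _, mem_filter.2 ⟨h3, hj⟩⟩
  have h3 := (card_le_card h2).trans (card_biUnion_le.trans (Finset.sum_le_sum fun j _ => h1 j))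
  have h4 := Finset.card_filter_add_card_filter_not (s := Q4 k) (fun p => ∀ j, p j ∉ Bad)
  have h5 := card_Q4 (k := k) (by omega)
  simp only [sum_const, card_univ, Fintype.card_fin, smul_eq_mul] at h3
  have h6 : (k / 2) * (k / 6)
      ≤ ((Q4 k).filter (fun p => ∀ j, p j ∉ Bad)).card + 4 * (Bad.card * k) := by omega
  have h7 : ((k / 2 : ℕ) : ℝ) * ((k / 6 : ℕ) : ℝ)
      ≤ ((Q4 k).filter (fun p => ∀ j, p j ∉ Bad)).card + 4 * ((Bad.card : ℝ) * k) := by
    exact_mod_cast h6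
  have h8 : (k : ℝ) ≤ 2 * ((k / 2 : ℕ) : ℝ) + 1 := by
    exact_mod_cast (by omega : k ≤ 2 * (k / 2) + 1)
  have h9 : (k : ℝ) ≤ 6 * ((k / 6 : ℕ) : ℝ) + 5 := by
    exact_mod_cast (by omega : k ≤ 6 * (k / 6) + 5)
  have h10 : 100 * (Bad.card : ℝ) ≤ k := by exact_mod_cast hB
  have h11 : (100 : ℝ) ≤ k := by exact_mod_cast hk
  have h12 : ((k : ℝ) - 1) * ((k : ℝ) - 5) ≤ (2 * ((k / 2 : ℕ) : ℝ)) * (6 * ((k / 6 : ℕ) : ℝ)) :=
    mul_le_mul (by linarith) (by linarith) (by linarith) (by positivity)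
  nlinarith [mul_le_mul_of_nonneg_right h10 (by linarith : (0 : ℝ) ≤ k)]

lemma step_le {k : ℕ} (hk : 100 ≤ k) {p : (Fin k → Bool) → ℝ}
    (hp : ∀ b : Fin k → ℝ, ∑ w, p w * ∏ i, (1 + b i * sg (w i)) = corr b) {ε J G : ℝ}
    (h0 : 0 < ε) (h1 : ε ≤ 1) (hJ2 : 2 ≤ J) (hJ : 8 * 27 ^ 8 * (k : ℝ) ^ 2 ≤ J ^ 3)
    (hG : G = (ε / 2003) ^ 4 / 4096 * ((k : ℝ) ^ 2 / 32))
    (herr : J * ε ^ 3 * (1 + ε) ^ k ≤ G / 2) :
    Conv p (Pr k (hh (1 + ε))) ≤ (1 - G / 2) • Pr k (uu (hh (1 + ε)))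
      + (G * Real.exp (-(k / 150))) • Pr k (ps (1 + ε)) := by
  intro m
  have ha : 0 < 1 + ε := by linarith
  have hG0 : 0 ≤ G := by rw [hG]; positivity
  have hα := Pr_pos (fun m => ((LL_hh h0 h1).uu m).1) m
  have hψ := Pr_pos (fun m => (LL_ps h0 h1 m).1) m
  have hc := corr_le_main (by omega : 4 ≤ k) h0.le hJ2 hJ (fun i => bb (hh (1 + ε)) (m i))
    (fun i => (bb_hh_bounds h0 h1 _).1) (fun i => (bb_hh_bounds h0 h1 _).2.1)
  rw [Conv_Pr hp _ (hh_pos ha), Pi.add_apply, Pi.smul_apply, Pi.smul_apply, smul_eq_mul,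
    smul_eq_mul]
  set Bad := univ.filter (fun i => ¬ (1 + ε) ^ (m i) ≤ 1000) with hBad
  have hnn : ∀ q : Fin 4 → Fin k, 0 ≤ (∏ j, bb (hh (1 + ε)) (m (q j))) / 4096 := fun q =>
    div_nonneg (prod_nonneg fun j _ => (bb_hh_bounds h0 h1 _).1) (by norm_num)
  by_cases hB : 100 * Bad.card ≤ k
  · have h2 : G ≤ ∑ q ∈ Q4 k, (∏ j, bb (hh (1 + ε)) (m (q j))) / 4096 := by
      refine le_trans ?_ (Finset.sum_le_sum_of_subset_of_nonneg
        (Finset.filter_subset (fun q => ∀ j, q j ∉ Bad) _) fun q _ _ => hnn q)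
      refine le_trans ?_ (Finset.card_nsmul_le_sum _ _ ((ε / 2003) ^ 4 / 4096) ?_)
      · rw [nsmul_eq_mul, hG, mul_comm]
        exact mul_le_mul_of_nonneg_right (card_good hk Bad hB) (by positivity)
      · intro q hq
        refine div_le_div_of_nonneg_right ?_ (by norm_num)
        have := Finset.prod_le_prod (s := (univ : Finset (Fin 4))) (f := fun _ => ε / 2003)
          (g := fun j => bb (hh (1 + ε)) (m (q j))) (fun _ _ => by positivity)
          (fun j _ => (bb_hh_bounds h0 h1 _).2.2 (by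
            have := (mem_filter.1 hq).2 j
            simpa [hBad] using this))
        rwa [prod_const, card_univ, Fintype.card_fin] at this
    have h3 : 0 ≤ G * Real.exp (-(k / 150)) * Pr k (ps (1 + ε)) m := by positivity
    nlinarith [mul_le_mul_of_nonneg_left hc hα.le]
  · have h2 : 0 ≤ ∑ q ∈ Q4 k, (∏ j, bb (hh (1 + ε)) (m (q j))) / 4096 :=
      Finset.sum_nonneg fun q _ => hnn q
    have h3 : 2 ^ Bad.card * Pr k (uu (hh (1 + ε))) m ≤ Pr k (ps (1 + ε)) m := by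
      have e : (2 : ℝ) ^ Bad.card = ∏ i, (if i ∈ Bad then 2 else 1) := by
        rw [Finset.prod_ite_mem, univ_inter, Finset.prod_const]
      unfold Pr
      rw [e, ← Finset.prod_mul_distrib]
      refine Finset.prod_le_prod (fun i _ => ?_) fun i _ => ?_
      · have := ((LL_hh h0 h1).uu (m i)).1
        split_ifs <;> positivity
      · have hx : 0 < (1 + ε) ^ (m i) := by positivity
        unfold ps
        split_ifs with hi
        · have h4 : ¬ (1 + ε) ^ (m i) ≤ 1000 := (mem_filter.1 hi).2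
          have h5 : uu (hh (1 + ε)) (m i) ≤ 2 := by
            unfold uu
            linarith [hh_le ha (m i + 1), hh_le ha (m i - 1)]
          linarith
        · linarith
    have h4 : Real.exp (k / 150) ≤ 2 ^ Bad.card := by
      have h5 : (k : ℝ) ≤ 100 * Bad.card := by exact_mod_cast (by omega : k ≤ 100 * Bad.card)
      have h6 := Real.log_two_gt_d9
      rw [← Real.exp_log (by norm_num : (0 : ℝ) < 2), ← Real.exp_nat_mul]
      refine Real.exp_le_exp.2 ?_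
      nlinarith [(Nat.cast_nonneg Bad.card : (0 : ℝ) ≤ _)]
    have h5 : Pr k (uu (hh (1 + ε))) m ≤ Real.exp (-(k / 150)) * Pr k (ps (1 + ε)) m := by
      rw [Real.exp_neg, ← div_eq_inv_mul, le_div_iff₀ (Real.exp_pos _)]
      nlinarith
    nlinarith [mul_le_mul_of_nonneg_left hc hα.le, mul_le_mul_of_nonneg_left h5 hG0]

/-- The bound for the probability that all `k` terms receive a fixed colour, times `2 ^ k`. -/
lemma R_le {k : ℕ} (hk : 100 ≤ k) {p : (Fin k → Bool) → ℝ} (hp0 : ∀ w, 0 ≤ p w)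
    (hp : ∀ b : Fin k → ℝ, ∑ w, p w * ∏ i, (1 + b i * sg (w i)) = corr b) {ε J G : ℝ} {T : ℕ}
    (h0 : 0 < ε) (h1 : ε ≤ 1) (hJ2 : 2 ≤ J) (hJ : 8 * 27 ^ 8 * (k : ℝ) ^ 2 ≤ J ^ 3)
    (hG : G = (ε / 2003) ^ 4 / 4096 * ((k : ℝ) ^ 2 / 32))
    (herr : J * ε ^ 3 * (1 + ε) ^ k ≤ G / 2) (hG1 : G ≤ 2) (hT : T * ε ^ 2 ≤ 1) :
    (Conv p ^ T) (Pr k (hh (1 + ε))) 0 ≤ (1 - G / 2) ^ T + T * (G * Real.exp (-(k / 150)) *
      ((1 + 2 * ε ^ 2 * (1 + ε) ^ k) ^ T * (1 + 1 / 250) ^ k)) := by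
  have hG0 : 0 ≤ G := by rw [hG]; positivity
  have := replace hp0 (hh (1 + ε)) (ps (1 + ε)) (1 - G / 2) (G * Real.exp (-(k / 150)))
    ((1 + 2 * ε ^ 2 * (1 + ε) ^ k) ^ T * (1 + 1 / 250) ^ k) (by linarith) (by linarith)
    (by positivity) (by positivity) T (uu_iter_hh (by linarith))
    (step_le hk hp h0 h1 hJ2 hJ hG herr) ?_ T 0 (by omega)
  · simpa using this
  intro l j hlj
  have h2 := pow_mono (Conv_mono (unif_nonneg k)) l
    (Conv_pow_le hp0 hp h0.le j _ (LL_ps h0 h1)) 0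
  refine h2.trans ?_
  rw [map_smul, unif_pow_Pr, ← Function.iterate_add_apply, Pi.smul_apply, smul_eq_mul]
  have hpos : ∀ n, LL ε (uu^[n] (ps (1 + ε))) := by
    intro n
    induction n with
    | zero => exact LL_ps h0 h1
    | succ n ih => rw [Function.iterate_succ_apply']; exact ih.uu
  refine mul_le_mul (pow_le_pow_right₀ (le_add_of_nonneg_right (by positivity)) (by omega)) ?_
    (Pr_pos (fun m => (hpos _ m).1) _).le (by positivity)
  simp only [Pr, Pi.zero_apply, prod_const, card_univ, Fintype.card_fin]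
  exact pow_le_pow_left₀ (hpos _ 0).1.le (uu_iter_ps_le h0 hT hlj) k

end Pool.Agent.MP_a31471_co

end MrgPart1

-- ======== part 2: formerly Pool.Agent.MP_a31471_co.Fourier
section MrgPart2

/-!
Random quadratic and linear phases realise the correlation sums along every progression.
-/

set_option autoImplicit false

namespace Pool.Agent.MP_a31471_co

open Finset

def coef (j : Fin 5) (L : Fin 9) (x : ℕ) : ℤ :=
  ![lr L, lr L * (x : ℤ), lr L * (x : ℤ) ^ 2, lh L, lh L * (x : ℤ)] j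

noncomputable def ch {N : ℕ} [NeZero N] (ω : Fin 5 → ZMod N) (x : ℕ) (L : Fin 9) : ℂ :=
  ∏ j, ZMod.stdAddChar (ω j * (coef j L x : ZMod N))

noncomputable def gc {N : ℕ} [NeZero N] (ω : Fin 5 → ZMod N) (x : ℕ) : ℂ :=
  ∑ L, (if L = 0 then 0 else (ls L : ℂ) / 8) * ch ω x L

noncomputable def gg {N : ℕ} [NeZero N] (ω : Fin 5 → ZMod N) (x : ℕ) : ℝ := (gc ω x).re

def lneg : Fin 9 → Fin 9 := ![0, 5, 6, 7, 8, 1, 2, 3, 4]

lemma lneg_spec : ∀ L, lneg (lneg L) = L ∧ lr (lneg L) = -lr L ∧ lh (lneg L) = -lh L ∧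
    ls (lneg L) = ls L ∧ (lneg L = 0 ↔ L = 0) := by decide

lemma ch_neg {N : ℕ} [NeZero N] (ω : Fin 5 → ZMod N) (x : ℕ) (L : Fin 9) :
    ch ω x (lneg L) = (starRingEnd ℂ) (ch ω x L) := by
  unfold ch
  rw [map_prod]
  refine Finset.prod_congr rfl fun j _ => ?_
  rw [← AddChar.map_neg_eq_conj]
  congr 1
  have : coef j (lneg L) x = -coef j L x := by
    fin_cases j <;> simp [coef, (lneg_spec L).2.1, (lneg_spec L).2.2.1]
  rw [this]
  push_cast
  ring

lemma gg_eq {N : ℕ} [NeZero N] (ω : Fin 5 → ZMod N) (x : ℕ) : (gg ω x : ℂ) = gc ω x := by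
  unfold gg
  rw [← Complex.conj_eq_iff_re]
  unfold gc
  rw [map_sum, ← Equiv.sum_comp (Function.Involutive.toPerm lneg fun L => (lneg_spec L).1)
    (fun L => (if L = 0 then 0 else (ls L : ℂ) / 8) * ch ω x L)]
  refine Finset.sum_congr rfl fun L _ => ?_
  simp only [Function.Involutive.coe_toPerm, ch_neg, (lneg_spec L).2.2.2.1, (lneg_spec L).2.2.2.2,
    map_mul]
  congr 1
  split_ifs
  · simp
  · simp only [map_div₀, map_intCast]
    congr 1
    exact map_ofNat _ 8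

lemma abs_gg {N : ℕ} [NeZero N] (ω : Fin 5 → ZMod N) (x : ℕ) : |gg ω x| ≤ 1 := by
  refine (Complex.abs_re_le_norm _).trans ((norm_sum_le _ _).trans (le_of_eq ?_))
  have h1 : ∀ L, ‖ch ω x L‖ = 1 := fun L => by simp [ch]
  have h2 : ∀ L : Fin 9, ‖(if L = 0 then 0 else (ls L : ℂ) / 8) * ch ω x L‖
      = if L = 0 then 0 else 1 / 8 := by
    intro L
    rw [norm_mul, h1, mul_one]
    split_ifs
    · simp
    · rw [norm_div, Complex.norm_intCast, abs_ls]; simp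
  simp only [h2]
  simp [Fin.sum_univ_succ]

lemma one_add_gg {N : ℕ} [NeZero N] (ω : Fin 5 → ZMod N) (x : ℕ) (b : ℝ) :
    ((1 + b * gg ω x : ℝ) : ℂ) = ∑ L, (wt b L : ℂ) * ch ω x L := by
  push_cast
  rw [gg_eq, gc, Finset.mul_sum]
  have h0 : ch ω x 0 = 1 := by
    unfold ch
    refine Finset.prod_eq_one fun j _ => ?_
    have : coef j 0 x = 0 := by fin_cases j <;> simp [coef]
    simp [this]
  have : ∀ L : Fin 9, (wt b L : ℂ) * ch ω x L = (if L = 0 then 1 else 0)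
      + b * ((if L = 0 then 0 else (ls L : ℂ) / 8) * ch ω x L) := by
    intro L
    unfold wt
    split_ifs with h
    · simp [h, h0]
    · push_cast; ring
  simp only [this]
  rw [Finset.sum_add_distrib]
  simp

lemma addChar_sum {N : ℕ} [NeZero N] {ι : Type*} (s : Finset ι) (f : ι → ZMod N) :
    ∏ i ∈ s, ZMod.stdAddChar (f i) = ZMod.stdAddChar (∑ i ∈ s, f i) := by
  classical
  induction s using Finset.induction_on with
  | empty => simp
  | insert a s ha ih => rw [prod_insert ha, sum_insert ha, ih, AddChar.map_add_eq_mul]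

lemma abs_coef (j : Fin 5) (L : Fin 9) (x n : ℕ) (hx : x ≤ n) :
    |coef j L x| ≤ 3 * ((n : ℤ) + 1) ^ 2 := by
  have h1 : |lr L| ≤ 3 := by revert L; decide
  have h2 : |lh L| ≤ 3 := by revert L; decide
  have h3 : (x : ℤ) ≤ n := by exact_mod_cast hx
  have h4 : (0 : ℤ) ≤ x := by positivity
  have h5 : (1 : ℤ) ≤ ((n : ℤ) + 1) ^ 2 := by nlinarith
  have h6 : |(x : ℤ)| ≤ ((n : ℤ) + 1) ^ 2 := by rw [abs_of_nonneg h4]; nlinarith
  have h7 : |(x : ℤ) ^ 2| ≤ ((n : ℤ) + 1) ^ 2 := by rw [abs_of_nonneg (by positivity)]; nlinarith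
  fin_cases j
  · change |lr L| ≤ _
    linarith
  · change |lr L * (x : ℤ)| ≤ _
    rw [abs_mul]; exact mul_le_mul h1 h6 (abs_nonneg _) (by norm_num)
  · change |lr L * (x : ℤ) ^ 2| ≤ _
    rw [abs_mul]; exact mul_le_mul h1 h7 (abs_nonneg _) (by norm_num)
  · change |lh L| ≤ _
    linarith
  · change |lh L * (x : ℤ)| ≤ _
    rw [abs_mul]; exact mul_le_mul h2 h6 (abs_nonneg _) (by norm_num)

lemma valid_iff {k : ℕ} (σ : Fin k → Fin 9) (a d : ℕ) (hd : 1 ≤ d) :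
    (∀ j, ∑ i, coef j (σ i) (a + i * d) = 0) ↔ Valid σ := by
  have hd0 : (d : ℤ) ≠ 0 := by omega
  have e1 : ∀ f : Fin 9 → ℤ, ∑ i, f (σ i) * ((a + i * d : ℕ) : ℤ)
      = a * ∑ i, f (σ i) + d * ∑ i, f (σ i) * ((i : ℕ) : ℤ) := by
    intro f
    rw [Finset.mul_sum, Finset.mul_sum, ← Finset.sum_add_distrib]
    refine Finset.sum_congr rfl fun i _ => ?_
    push_cast; ring
  have e2 : ∑ i, lr (σ i) * ((a + i * d : ℕ) : ℤ) ^ 2
      = a ^ 2 * ∑ i, lr (σ i) + 2 * a * d * ∑ i, lr (σ i) * ((i : ℕ) : ℤ)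
        + d ^ 2 * ∑ i, lr (σ i) * ((i : ℕ) : ℤ) ^ 2 := by
    rw [Finset.mul_sum, Finset.mul_sum, Finset.mul_sum, ← Finset.sum_add_distrib,
      ← Finset.sum_add_distrib]
    refine Finset.sum_congr rfl fun i _ => ?_
    push_cast; ring
  constructor
  · intro h
    have h0 : ∑ i, lr (σ i) = 0 := h 0
    have h1 : ∑ i, lr (σ i) * ((a + i * d : ℕ) : ℤ) = 0 := h 1
    have h2 : ∑ i, lr (σ i) * ((a + i * d : ℕ) : ℤ) ^ 2 = 0 := h 2
    have h3 : ∑ i, lh (σ i) = 0 := h 3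
    have h4 : ∑ i, lh (σ i) * ((a + i * d : ℕ) : ℤ) = 0 := h 4
    rw [e1, h0, mul_zero, zero_add] at h1
    have h1' := (mul_eq_zero.1 h1).resolve_left hd0
    rw [e2, h0, h1', mul_zero, mul_zero, zero_add, zero_add] at h2
    rw [e1, h3, mul_zero, zero_add] at h4
    exact ⟨h0, h1', (mul_eq_zero.1 h2).resolve_left (pow_ne_zero 2 hd0), h3,
      (mul_eq_zero.1 h4).resolve_left hd0⟩
  · rintro ⟨h0, h1, h2, h3, h4⟩ j
    fin_cases j
    · exact h0
    · change ∑ i, lr (σ i) * ((a + i * d : ℕ) : ℤ) = 0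
      rw [e1, h0, h1]; ring
    · change ∑ i, lr (σ i) * ((a + i * d : ℕ) : ℤ) ^ 2 = 0
      rw [e2, h0, h1, h2]; ring
    · exact h3
    · change ∑ i, lh (σ i) * ((a + i * d : ℕ) : ℤ) = 0
      rw [e1, h3, h4]; ring

lemma sum_prod_gg {N : ℕ} [NeZero N] {k n a d : ℕ} (hN : k * (3 * (n + 1) ^ 2) < N) (hd : 1 ≤ d)
    (hn : ∀ i : Fin k, a + i * d ≤ n) (b : Fin k → ℝ) :
    ∑ ω : Fin 5 → ZMod N, ∏ i, (1 + b i * gg ω (a + i * d)) = (N : ℝ) ^ 5 * corr b := by
  apply Complex.ofReal_injective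
  rw [Complex.ofReal_sum]
  simp only [Complex.ofReal_prod, one_add_gg]
  have h1 : ∀ ω : Fin 5 → ZMod N, ∏ i : Fin k, ∑ L, (wt (b i) L : ℂ) * ch ω (a + i * d) L
      = ∑ σ : Fin k → Fin 9, (∏ i, (wt (b i) (σ i) : ℂ)) * ∏ j, ZMod.stdAddChar
        (ω j * ((∑ i, coef j (σ i) (a + i * d) : ℤ) : ZMod N)) := by
    intro ω
    rw [Finset.prod_univ_sum, Fintype.piFinset_univ]
    refine Finset.sum_congr rfl fun σ _ => ?_
    rw [Finset.prod_mul_distrib]
    congr 1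
    unfold ch
    rw [Finset.prod_comm]
    refine Finset.prod_congr rfl fun j _ => ?_
    rw [addChar_sum, Int.cast_sum, Finset.mul_sum]
  simp only [h1]
  rw [Finset.sum_comm]
  unfold corr
  rw [Finset.sum_filter]
  push_cast
  rw [Finset.mul_sum]
  refine Finset.sum_congr rfl fun σ _ => ?_
  rw [← Finset.mul_sum]
  have h2 := Finset.prod_univ_sum (fun _ : Fin 5 => (univ : Finset (ZMod N)))
    (fun j t => ZMod.stdAddChar (t * ((∑ i, coef j (σ i) (a + i * d) : ℤ) : ZMod N)))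
  rw [Fintype.piFinset_univ] at h2
  push_cast at h2
  rw [← h2]
  have h3 : ∀ j : Fin 5, (∑ i, ((coef j (σ i) (a + i * d) : ℤ) : ZMod N)) = 0
      ↔ ∑ i, coef j (σ i) (a + i * d) = 0 := by
    intro j
    rw [← Int.cast_sum, ZMod.intCast_zmod_eq_zero_iff_dvd]
    refine ⟨fun h => Int.eq_zero_of_abs_lt_dvd h ?_, fun h => h ▸ dvd_zero _⟩
    refine (Finset.abs_sum_le_sum_abs _ _).trans_lt (lt_of_le_of_lt
      (Finset.sum_le_sum fun i _ => abs_coef j _ _ n (hn i)) ?_)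
    simp only [sum_const, card_univ, Fintype.card_fin, nsmul_eq_mul]
    exact_mod_cast hN
  simp only [AddChar.sum_mulShift _ (ZMod.isPrimitive_stdAddChar N), h3, ZMod.card]
  by_cases hv : Valid σ
  · have := (valid_iff σ a d hd).2 hv
    simp only [this, if_true]
    simp [hv, mul_comm]
  · obtain ⟨j, hj⟩ := not_forall.1 (mt (valid_iff σ a d hd).1 hv)
    rw [Finset.prod_eq_zero (mem_univ j) (by simp [hj])]
    simp [hv]

end Pool.Agent.MP_a31471_co

end MrgPart2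

-- ======== part 3: formerly Pool.Agent.MP_a31471_co.Round
section MrgPart3

/-!
Independent copies, the fractional colouring and its rounding.
-/

set_option autoImplicit false

namespace Pool.Agent.MP_a31471_co

open Finset

/-- Expectation of `ψ` after `T` independent signs with means `γ t` have been added. -/
noncomputable def HH (ψ : ℤ → ℝ) : (T : ℕ) → (Fin T → ℝ) → ℤ → ℝ
  | 0, _, m => ψ m
  | T + 1, γ, m => (1 + γ 0) / 2 * HH ψ T (Fin.tail γ) (m + 1)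
      + (1 - γ 0) / 2 * HH ψ T (Fin.tail γ) (m - 1)

lemma HH_nonneg {ψ : ℤ → ℝ} (hψ : ∀ m, 0 ≤ ψ m) (T : ℕ) (γ : Fin T → ℝ) (hγ : ∀ t, |γ t| ≤ 1)
    (m : ℤ) : 0 ≤ HH ψ T γ m := by
  induction T generalizing m with
  | zero => exact hψ m
  | succ T ih =>
    have h1 := abs_le.1 (hγ 0)
    have h2 := ih (Fin.tail γ) (fun t => hγ _) (m + 1)
    have h3 := ih (Fin.tail γ) (fun t => hγ _) (m - 1)
    exact add_nonneg (mul_nonneg (by linarith) h2) (mul_nonneg (by linarith) h3)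

lemma HH_neg {ψ : ℤ → ℝ} (hψ : ∀ m, ψ m + ψ (-m) = 2) (T : ℕ) (γ : Fin T → ℝ) (m : ℤ) :
    HH ψ T γ m + HH ψ T (fun t => -γ t) (-m) = 2 := by
  induction T generalizing m with
  | zero => exact hψ m
  | succ T ih =>
    have h1 := ih (Fin.tail γ) (m + 1)
    have h2 := ih (Fin.tail γ) (m - 1)
    rw [show -(m + 1) = -m - 1 by ring] at h1
    rw [show -(m - 1) = -m + 1 by ring] at h2
    have e : Fin.tail (fun t => -γ t) = fun t => -Fin.tail γ t := rfl
    simp only [HH, e]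
    linear_combination (1 + γ 0) / 2 * h1 + (1 - γ 0) / 2 * h2

noncomputable def pw {Ω : Type*} [Fintype Ω] {k : ℕ} (g : Ω → Fin k → ℝ) (w : Fin k → Bool) : ℝ :=
  (∑ ω, ∏ i, (1 + sg (w i) * g ω i) / 2) / Fintype.card Ω

lemma pw_nonneg {Ω : Type*} [Fintype Ω] {k : ℕ} (g : Ω → Fin k → ℝ) (hg : ∀ ω i, |g ω i| ≤ 1)
    (w : Fin k → Bool) : 0 ≤ pw g w := by
  refine div_nonneg (sum_nonneg fun ω _ => prod_nonneg fun i _ => ?_) (by positivity)
  have := abs_le.1 (hg ω i)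
  unfold sg
  split_ifs <;> push_cast <;> linarith

lemma pw_sum {Ω : Type*} [Fintype Ω] {k : ℕ} (g : Ω → Fin k → ℝ) (b : Fin k → ℝ) :
    ∑ w, pw g w * ∏ i, (1 + b i * sg (w i)) = (∑ ω, ∏ i, (1 + b i * g ω i)) / Fintype.card Ω := by
  unfold pw
  simp only [div_mul_eq_mul_div, Finset.sum_mul]
  rw [← Finset.sum_div, Finset.sum_comm]
  congr 1
  refine Finset.sum_congr rfl fun ω _ => ?_
  simp only [← Finset.prod_mul_distrib]
  rw [prod_add_eq (fun i c => (1 + sg c * g ω i) / 2 * (1 + b i * sg c))]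
  refine Finset.prod_congr rfl fun i _ => ?_
  simp only [sg, if_true, Bool.false_eq_true, if_false]
  push_cast
  ring

lemma sum_HH {Ω : Type*} [Fintype Ω] [Nonempty Ω] {k : ℕ} (g : Ω → Fin k → ℝ) (ψ : ℤ → ℝ)
    (T : ℕ) (m : Fin k → ℤ) :
    ∑ ω : Fin T → Ω, ∏ i, HH ψ T (fun t => g (ω t) i) (m i)
      = (Fintype.card Ω : ℝ) ^ T * (Conv (pw g) ^ T) (Pr k ψ) m := by
  induction T generalizing m with
  | zero => simp [HH, Pr]
  | succ T ih =>
    have hc : (Fintype.card Ω : ℝ) ≠ 0 := by positivity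
    rw [← (Fin.consEquiv (fun _ : Fin (T + 1) => Ω)).sum_comp, Fintype.sum_prod_type, pow_succ',
      pow_succ' (Conv (pw g)), Module.End.mul_apply, Conv_apply, Finset.mul_sum]
    have h1 : ∀ (x : Ω) (ω : Fin T → Ω), ∏ i, HH ψ (T + 1)
        (fun t => g ((Fin.consEquiv (fun _ : Fin (T + 1) => Ω)) (x, ω) t) i) (m i)
        = ∑ w : Fin k → Bool, (∏ i, (1 + sg (w i) * g x i) / 2) *
          ∏ i, HH ψ T (fun t => g (ω t) i) (m i + sg (w i)) := by
      intro x ω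
      simp only [← Finset.prod_mul_distrib]
      rw [prod_add_eq (fun i c => (1 + sg c * g x i) / 2
        * HH ψ T (fun t => g (ω t) i) (m i + sg c))]
      refine Finset.prod_congr rfl fun i _ => ?_
      have e : Fin.tail (fun t => g ((Fin.consEquiv (fun _ : Fin (T + 1) => Ω)) (x, ω) t) i)
          = fun t => g (ω t) i := rfl
      have e0 : (Fin.consEquiv (fun _ : Fin (T + 1) => Ω)) (x, ω) 0 = x := rfl
      simp only [HH, e, e0, sg, if_true, Bool.false_eq_true, if_false, ← sub_eq_add_neg]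
      push_cast
      ring
    simp only [h1]
    have h2 : ∀ x : Ω, ∑ ω : Fin T → Ω, ∑ w : Fin k → Bool, (∏ i, (1 + sg (w i) * g x i) / 2) *
          ∏ i, HH ψ T (fun t => g (ω t) i) (m i + sg (w i))
        = ∑ w : Fin k → Bool, (∏ i, (1 + sg (w i) * g x i) / 2) * ((Fintype.card Ω : ℝ) ^ T *
          (Conv (pw g) ^ T) (Pr k ψ) (fun i => m i + sg (w i))) := by
      intro x
      rw [Finset.sum_comm]
      refine Finset.sum_congr rfl fun w _ => ?_
      rw [← Finset.mul_sum, ih]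
    simp only [h2]
    rw [Finset.sum_comm]
    refine Finset.sum_congr rfl fun w _ => ?_
    rw [← Finset.sum_mul]
    unfold pw
    field_simp

lemma marginal {Z : Type*} [Fintype Z] [DecidableEq Z] (f : Z → Bool → ℝ)
    (hf : ∀ z, f z true + f z false = 1) {k : ℕ} (z : Fin k → Z) (hz : Function.Injective z)
    (col : Bool) :
    ∑ c : Z → Bool, (∏ y, f y (c y)) * (if ∀ i, c (z i) = col then 1 else 0)
      = ∏ i, f (z i) col := by
  have h := Finset.prod_univ_sum (fun _ : Z => (univ : Finset Bool))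
    (fun y c => f y c * (if y ∈ univ.image z then (if c = col then 1 else 0) else 1))
  rw [Fintype.piFinset_univ] at h
  have e1 : ∀ c : Z → Bool, ∏ y, (f y (c y) *
      (if y ∈ univ.image z then (if c y = col then 1 else 0) else 1))
      = (∏ y, f y (c y)) * (if ∀ i, c (z i) = col then 1 else 0) := by
    intro c
    rw [Finset.prod_mul_distrib, Finset.prod_ite_mem, univ_inter,
      Finset.prod_image (fun a _ b _ h => hz h), Finset.prod_boole]
    simp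
  simp only [e1] at h
  rw [← h, ← Finset.prod_image (s := univ) (g := z) (f := fun y => f y col)
    (fun a _ b _ h => hz h), ← univ_inter (univ.image z), ← Finset.prod_ite_mem, univ_inter]
  refine Finset.prod_congr rfl fun y _ => ?_
  split_ifs
  · cases col <;> simp
  · simpa using hf y

lemma rounding {Z ι : Type*} [Fintype Z] [DecidableEq Z] (f : Z → Bool → ℝ)
    (hf0 : ∀ z c, 0 ≤ f z c) (hf : ∀ z, f z true + f z false = 1) {k : ℕ} (s : Finset ι)
    (z : ι → Fin k → Z) (hz : ∀ q ∈ s, Function.Injective (z q)) :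
    ∃ c : Z → Bool, ∑ q ∈ s, ((if ∀ i, c (z q i) = true then (1 : ℝ) else 0)
        + (if ∀ i, c (z q i) = false then (1 : ℝ) else 0))
      ≤ ∑ q ∈ s, (∏ i, f (z q i) true + ∏ i, f (z q i) false) := by
  obtain ⟨c0, -, hc0⟩ := Finset.exists_min_image (univ : Finset (Z → Bool))
    (fun c => ∑ q ∈ s, ((if ∀ i, c (z q i) = true then (1 : ℝ) else 0)
        + (if ∀ i, c (z q i) = false then (1 : ℝ) else 0))) univ_nonempty
  refine ⟨c0, ?_⟩
  have h1 : ∑ c : Z → Bool, ∏ y, f y (c y) = 1 := by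
    have h := Finset.prod_univ_sum (fun _ : Z => (univ : Finset Bool)) f
    rw [Fintype.piFinset_univ] at h
    rw [← h]
    simp [hf]
  have h2 := Finset.sum_le_sum (s := univ) fun c hc => mul_le_mul_of_nonneg_left (hc0 c hc)
    (prod_nonneg fun y (_ : y ∈ univ) => hf0 y (c y))
  rw [← Finset.sum_mul, h1, one_mul] at h2
  refine h2.trans (le_of_eq ?_)
  simp only [Finset.mul_sum, mul_add]
  rw [Finset.sum_comm]
  refine Finset.sum_congr rfl fun q hq => ?_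
  rw [Finset.sum_add_distrib, marginal f hf _ (hz q hq), marginal f hf _ (hz q hq)]

/-- The progressions of length `k` in `[n]`. -/
def APs (k n : ℕ) : Finset (ℕ × ℕ) :=
  (Icc 1 n ×ˢ Icc 1 n).filter (fun q => q.1 + (k - 1) * q.2 ≤ n)

lemma card_APs {k : ℕ} (hk : 2 ≤ k) (n : ℕ) :
    ((APs k n).card : ℝ) ≤ (n : ℝ) ^ 2 / ((k : ℝ) - 1) := by
  have h1 : (APs k n).card ≤ (Icc 1 n ×ˢ Icc 1 (n / (k - 1))).card := by
    refine card_le_card fun q hq => ?_
    obtain ⟨h2, h3⟩ := mem_filter.1 hq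
    obtain ⟨h4, h5⟩ := mem_product.1 h2
    refine mem_product.2 ⟨h4, mem_Icc.2 ⟨(mem_Icc.1 h5).1, ?_⟩⟩
    rw [Nat.le_div_iff_mul_le (by omega), mul_comm]
    omega
  simp only [card_product, Nat.card_Icc, add_tsub_cancel_right] at h1
  have h2 : ((n / (k - 1) : ℕ) : ℝ) ≤ (n : ℝ) / ((k : ℝ) - 1) := by
    have := Nat.cast_div_le (α := ℝ) (m := n) (n := k - 1)
    rwa [Nat.cast_sub (by omega), Nat.cast_one] at this
  calc ((APs k n).card : ℝ) ≤ (n : ℝ) * ((n / (k - 1) : ℕ) : ℝ) := by exact_mod_cast h1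
    _ ≤ n * ((n : ℝ) / ((k : ℝ) - 1)) := mul_le_mul_of_nonneg_left h2 (by positivity)
    _ = _ := by ring

/-- If the `T`-fold operator bound `R` holds, some colouring has few monochromatic progressions. -/
lemma exists_colouring {k : ℕ} (hk : 2 ≤ k) {a R : ℝ} (ha : 0 < a) (T : ℕ)
    (hR : ∀ p : (Fin k → Bool) → ℝ, (∀ w, 0 ≤ p w) →
      (∀ b : Fin k → ℝ, ∑ w, p w * ∏ i, (1 + b i * sg (w i)) = corr b) →
      (Conv p ^ T) (Pr k (hh a)) 0 ≤ R) (n : ℕ) :
    ∃ c : ℕ → Bool, (((APs k n).filter (fun q => ∀ i < k, c (q.1 + i * q.2) = c q.1)).card : ℝ)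
      ≤ (APs k n).card * (2 * R / 2 ^ k) := by
  set N := k * (3 * (n + 1) ^ 2) + 1 with hN
  have : NeZero N := ⟨by omega⟩
  have hmem : ∀ q ∈ APs k n, 1 ≤ q.2 ∧ ∀ i : Fin k, q.1 + i * q.2 ≤ n := by
    intro q hq
    obtain ⟨h2, h3⟩ := mem_filter.1 hq
    refine ⟨(mem_Icc.1 (mem_product.1 h2).2).1, fun i => ?_⟩
    have : (i : ℕ) * q.2 ≤ (k - 1) * q.2 := Nat.mul_le_mul_right _ (by have := i.2; omega)
    omega
  have hc : (Fintype.card (Fin 5 → ZMod N) : ℝ) = (N : ℝ) ^ 5 := by simp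
  have hN0 : (N : ℝ) ^ 5 ≠ 0 := by positivity
  set F : (Fin T → Fin 5 → ZMod N) → ℕ → Bool → ℝ := fun ω x c =>
    HH (hh a) T (fun t => sg c * gg (ω t) x) 0 / 2 with hF
  have h1 : ∀ q ∈ APs k n, ∀ c : Bool, ∑ ω, ∏ i : Fin k, F ω (q.1 + i * q.2) c
      ≤ ((N : ℝ) ^ 5) ^ T * (R / 2 ^ k) := by
    intro q hq c
    have h2 := sum_HH (fun (ω : Fin 5 → ZMod N) (i : Fin k) => sg c * gg ω (q.1 + i * q.2))
      (hh a) T 0
    have h3 := hR (pw (fun (ω : Fin 5 → ZMod N) (i : Fin k) => sg c * gg ω (q.1 + i * q.2)))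
      (pw_nonneg _ fun ω i => by
        have := abs_gg ω (q.1 + i * q.2)
        cases c <;> simpa [sg] using this) ?_
    · simp only [hF, Finset.prod_div_distrib, prod_const, card_univ, Fintype.card_fin]
      rw [← Finset.sum_div, ← mul_div_assoc]
      refine div_le_div_of_nonneg_right ?_ (by positivity)
      simp only [Pi.zero_apply] at h2
      rw [h2, hc]
      exact mul_le_mul_of_nonneg_left h3 (by positivity)
    · intro b
      rw [pw_sum, hc, div_eq_iff hN0, mul_comm (corr b)]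
      have h4 := fun b => sum_prod_gg (N := N) (k := k) (n := n) (by omega) (hmem q hq).1
        (hmem q hq).2 b
      cases c
      · rw [← corr_neg, ← h4]
        simp [sg]
      · rw [← h4]
        simp [sg]
  obtain ⟨ω, -, hω⟩ := Finset.exists_le_of_sum_le (s := (univ : Finset (Fin T → Fin 5 → ZMod N)))
    univ_nonempty
    (f := fun ω => ∑ q ∈ APs k n, (∏ i : Fin k, F ω (q.1 + i * q.2) true
      + ∏ i : Fin k, F ω (q.1 + i * q.2) false))
    (g := fun _ => (APs k n).card * (2 * R / 2 ^ k)) (by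
      rw [Finset.sum_comm]
      refine (Finset.sum_le_sum (g := fun _ => ((N : ℝ) ^ 5) ^ T * (2 * R / 2 ^ k))
        fun q hq => ?_).trans (le_of_eq ?_)
      · rw [Finset.sum_add_distrib]
        have := add_le_add (h1 q hq true) (h1 q hq false)
        refine this.trans (le_of_eq ?_)
        ring
      · simp only [sum_const, card_univ, nsmul_eq_mul, Fintype.card_fun, Fintype.card_fin,
          ZMod.card]
        push_cast
        ring)
  have hval : ∀ q ∈ APs k n, ∀ i : Fin k,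
      ((Fin.ofNat (n + 1) (q.1 + i * q.2) : Fin (n + 1)) : ℕ) = q.1 + i * q.2 := by
    intro q hq i
    rw [Fin.val_ofNat, Nat.mod_eq_of_lt (Nat.lt_succ_of_le ((hmem q hq).2 i))]
  obtain ⟨c, hc⟩ := rounding (Z := Fin (n + 1)) (fun y c => F ω y c)
    (fun y c => div_nonneg (HH_nonneg (fun m => (hh_pos ha m).le) T _ (fun t => by
      have := abs_gg (ω t) y
      cases c <;> simpa [sg] using this) 0) (by norm_num))
    (fun y => by
      have := HH_neg (hh_neg ha) T (fun t => gg (ω t) y) 0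
      simp only [hF, sg, if_true, Bool.false_eq_true, if_false]
      simp only [neg_zero] at this
      push_cast
      simp only [one_mul, neg_mul]
      linarith)
    (APs k n) (fun q (i : Fin k) => Fin.ofNat (n + 1) (q.1 + i * q.2))
    (fun q hq i j h => by
      have h' := congrArg Fin.val h
      simp only [hval q hq] at h'
      have := (hmem q hq).1
      exact Fin.ext (Nat.eq_of_mul_eq_mul_right (by omega) (Nat.add_left_cancel h')))
  refine ⟨fun x => c (Fin.ofNat (n + 1) x), le_trans ?_ (hc.trans (le_trans (le_of_eq ?_) hω))⟩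
  · rw [Finset.card_filter]
    push_cast
    refine Finset.sum_le_sum fun q _ => ?_
    by_cases h : ∀ i < k, c (Fin.ofNat (n + 1) (q.1 + i * q.2)) = c (Fin.ofNat (n + 1) q.1)
    · rw [if_pos h]
      cases h0 : c (Fin.ofNat (n + 1) q.1)
      · rw [if_pos (show ∀ i : Fin k, c (Fin.ofNat (n + 1) (q.1 + i * q.2)) = false from
          fun i => (h i i.2).trans h0)]
        split_ifs <;> norm_num
      · rw [if_pos (show ∀ i : Fin k, c (Fin.ofNat (n + 1) (q.1 + i * q.2)) = true from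
          fun i => (h i i.2).trans h0)]
        split_ifs <;> norm_num
    · rw [if_neg h]
      split_ifs <;> norm_num
  · refine Finset.sum_congr rfl fun q hq => ?_
    simp only [hval q hq]

end Pool.Agent.MP_a31471_co

end MrgPart3

-- ======== part 4: formerly Pool.Agent.MP_a31471_co.Main
section MrgPart4

/-!
Choice of the parameters.
-/

set_option autoImplicit false

namespace Pool.Agent.MP_a31471_co

open Finset

lemma params {c : ℝ} (hc0 : 0 < c) (hc1 : c ≤ 1) (k : ℕ) (hk0 : 0 < k)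
    (hL : 12 * (16 * 27 ^ 3) / c ≤ Real.log k) :
    ∃ (ε J : ℝ) (T : ℕ), 100 ≤ k ∧ 0 < ε ∧ ε ≤ 1 ∧ 2 ≤ J ∧ 8 * 27 ^ 8 * (k : ℝ) ^ 2 ≤ J ^ 3 ∧
      J * ε ^ 3 * (1 + ε) ^ k ≤ c * ε ^ 4 * k ^ 2 / 2 ∧ c * ε ^ 4 * k ^ 2 ≤ 2 ∧ T * ε ^ 2 ≤ 1 ∧
      2 * ((1 - c * ε ^ 4 * k ^ 2 / 2) ^ T + T * (c * ε ^ 4 * k ^ 2 * Real.exp (-(k / 150)) *
        ((1 + 2 * ε ^ 2 * (1 + ε) ^ k) ^ T * (1 + 1 / 250) ^ k)))
        ≤ Real.exp (-(c / 128) * Real.log k ^ 2) := by
  set L := Real.log k with hLdef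
  have hk : (0 : ℝ) < k := by exact_mod_cast hk0
  have hcL : 12 * (16 * 27 ^ 3) ≤ c * L := by rwa [div_le_iff₀ hc0, mul_comm L] at hL
  have hL0 : 0 < L := by
    by_contra h
    nlinarith
  have hL1 : 12 * (16 * 27 ^ 3) ≤ L := by nlinarith
  set z := Real.exp (L / 12) with hz
  have hz1 : L / 12 + 1 ≤ z := Real.add_one_le_exp _
  have hz10 : 10 ≤ z := by linarith
  have hz0 : 0 < z := by linarith
  have hz12 : z ^ 12 = k := by
    rw [hz, ← Real.exp_nat_mul, hLdef]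
    push_cast
    rw [mul_div_cancel₀ _ (by norm_num), Real.exp_log hk]
  have hz3 : z ^ 3 = Real.exp (L / 4) := by
    rw [hz, ← Real.exp_nat_mul]
    congr 1
    push_cast
    ring
  have hz9 : (10 : ℝ) ^ 9 ≤ z ^ 9 := pow_le_pow_left₀ (by norm_num) hz10 9
  have hzz : z ^ 2 ≤ z ^ 3 := pow_le_pow_right₀ (by linarith) (by norm_num)
  have hz2 : 100 ≤ z ^ 2 := by nlinarith
  have hkz : 10 ^ 9 * z ^ 3 ≤ k := by
    rw [← hz12, show z ^ 12 = z ^ 9 * z ^ 3 by ring]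
    exact mul_le_mul_of_nonneg_right hz9 (by positivity)
  have hLz : L ^ 2 ≤ 144 * z ^ 2 := by nlinarith
  set ε := L / (4 * k) with hε
  have hε0 : 0 < ε := by positivity
  have hεk : ε * k = L / 4 := by rw [hε]; field_simp
  have hε2 : ε ^ 2 * k ≤ 1 := by
    have h1 : ε ^ 2 * k * k ≤ 1 * k := by
      rw [show ε ^ 2 * k * k = (ε * k) ^ 2 by ring, hεk]
      nlinarith
    exact le_of_mul_le_mul_right h1 hk
  have hk100 : (100 : ℝ) ≤ k := by nlinarith
  have hε3 : ε ^ 2 ≤ 1 / 100 := by nlinarith [sq_nonneg ε]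
  have hε1 : ε ≤ 1 := by nlinarith
  have hE : (1 + ε) ^ k ≤ z ^ 3 := by
    rw [hz3, ← hεk, mul_comm, Real.exp_nat_mul]
    exact pow_le_pow_left₀ (by linarith) (by linarith [Real.add_one_le_exp ε]) k
  set T := ⌊1 / ε ^ 2⌋₊ with hT
  have hT1 : T * ε ^ 2 ≤ 1 := by
    have := Nat.floor_le (show 0 ≤ 1 / ε ^ 2 by positivity)
    rwa [le_div_iff₀ (by positivity)] at this
  have hT2 : 1 / 2 ≤ T * ε ^ 2 := by
    have := Nat.lt_floor_add_one (1 / ε ^ 2)
    rw [div_lt_iff₀ (by positivity)] at this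
    nlinarith
  have hG : c * ε ^ 4 * k ^ 2 ≤ 2 := by
    have h1 : (ε ^ 2 * k) ^ 2 ≤ 1 := pow_le_one₀ (by positivity) hε2
    have h2 : c * ε ^ 4 * k ^ 2 = c * (ε ^ 2 * k) ^ 2 := by ring
    nlinarith [sq_nonneg (ε ^ 2 * k)]
  have hTG : T * (c * ε ^ 4 * k ^ 2) = T * ε ^ 2 * (c * L ^ 2 / 16) := by
    rw [show T * (c * ε ^ 4 * k ^ 2) = T * ε ^ 2 * (c * (ε * k) ^ 2) by ring, hεk]
    ring
  refine ⟨ε, 2 * 27 ^ 3 * z ^ 8, T, by exact_mod_cast hk100, hε0, hε1, ?_, ?_, ?_, hG, hT1, ?_⟩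
  · have : 1 ≤ z ^ 8 := one_le_pow₀ (by linarith)
    nlinarith
  · rw [← hz12, show (2 * 27 ^ 3 * z ^ 8) ^ 3 = 8 * 27 ^ 9 * (z ^ 12) ^ 2 by ring]
    exact mul_le_mul_of_nonneg_right (by norm_num) (by positivity)
  · have h1 : c * ε ^ 4 * k ^ 2 / 2 = ε ^ 3 * (c * L / 8 * z ^ 12) := by
      rw [hz12, show c * ε ^ 4 * k ^ 2 / 2 = ε ^ 3 * (c * (ε * k) / 2 * k) by ring, hεk]
      ring
    have h2 : 2 * 27 ^ 3 * z ^ 11 ≤ c * L / 8 * z ^ 12 := by
      rw [show c * L / 8 * z ^ 12 = c * L / 8 * z * z ^ 11 by ring]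
      refine mul_le_mul_of_nonneg_right ?_ (by positivity)
      nlinarith
    rw [h1]
    calc 2 * 27 ^ 3 * z ^ 8 * ε ^ 3 * (1 + ε) ^ k ≤ 2 * 27 ^ 3 * z ^ 8 * ε ^ 3 * z ^ 3 :=
          mul_le_mul_of_nonneg_left hE (by positivity)
      _ = ε ^ 3 * (2 * 27 ^ 3 * z ^ 11) := by ring
      _ ≤ _ := mul_le_mul_of_nonneg_left h2 (by positivity)
  · have hcL2 : 0 ≤ c * L ^ 2 := by positivity
    have h1 : (1 - c * ε ^ 4 * k ^ 2 / 2) ^ T ≤ Real.exp (-(c / 64) * L ^ 2) := by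
      refine (pow_le_pow_left₀ (by linarith)
        (show _ ≤ Real.exp (-(c * ε ^ 4 * k ^ 2 / 2)) by
          linarith [Real.add_one_le_exp (-(c * ε ^ 4 * k ^ 2 / 2))]) T).trans ?_
      rw [← Real.exp_nat_mul]
      refine Real.exp_le_exp.2 ?_
      nlinarith [mul_le_mul_of_nonneg_right hT2 hcL2]
    have h2 : T * (c * ε ^ 4 * k ^ 2) ≤ Real.exp (L ^ 2) := by
      rw [hTG]
      have := Real.add_one_le_exp (L ^ 2)
      nlinarith [mul_le_mul_of_nonneg_right hT1 hcL2, mul_le_mul_of_nonneg_right hc1 (sq_nonneg L)]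
    have h3 : (1 + 2 * ε ^ 2 * (1 + ε) ^ k) ^ T ≤ Real.exp (2 * z ^ 3) := by
      refine (pow_le_pow_left₀ (by positivity)
        (show _ ≤ Real.exp (2 * ε ^ 2 * z ^ 3) by
          have := mul_le_mul_of_nonneg_left hE (show 0 ≤ 2 * ε ^ 2 by positivity)
          linarith [Real.add_one_le_exp (2 * ε ^ 2 * z ^ 3)]) T).trans ?_
      rw [← Real.exp_nat_mul]
      refine Real.exp_le_exp.2 ?_
      nlinarith [mul_le_mul_of_nonneg_right hT1 (show 0 ≤ z ^ 3 by positivity)]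
    have h4 : (1 + 1 / 250 : ℝ) ^ k ≤ Real.exp (k / 250) := by
      rw [show (k : ℝ) / 250 = k * (1 / 250) by ring, Real.exp_nat_mul]
      exact pow_le_pow_left₀ (by norm_num) (by linarith [Real.add_one_le_exp (1 / 250 : ℝ)]) k
    have h5 : T * (c * ε ^ 4 * k ^ 2 * Real.exp (-(k / 150)) *
        ((1 + 2 * ε ^ 2 * (1 + ε) ^ k) ^ T * (1 + 1 / 250) ^ k))
        ≤ Real.exp (-(c / 64) * L ^ 2) := by
      calc _ = T * (c * ε ^ 4 * k ^ 2) * Real.exp (-(k / 150)) *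
            ((1 + 2 * ε ^ 2 * (1 + ε) ^ k) ^ T * (1 + 1 / 250) ^ k) := by ring
        _ ≤ Real.exp (L ^ 2) * Real.exp (-(k / 150)) *
            (Real.exp (2 * z ^ 3) * Real.exp (k / 250)) := by gcongr
        _ = Real.exp (L ^ 2 + -(k / 150) + (2 * z ^ 3 + k / 250)) := by
            simp only [Real.exp_add]
        _ ≤ _ := by
            refine Real.exp_le_exp.2 ?_
            nlinarith [mul_le_mul_of_nonneg_right hc1 (sq_nonneg L)]
    have h6 : 4 ≤ Real.exp (c / 128 * L ^ 2) := by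
      have := Real.add_one_le_exp (c / 128 * L ^ 2)
      nlinarith
    have h7 : Real.exp (-(c / 128) * L ^ 2)
        = Real.exp (c / 128 * L ^ 2) * Real.exp (-(c / 64) * L ^ 2) := by
      rw [← Real.exp_add]
      congr 1
      ring
    rw [h7]
    nlinarith [Real.exp_pos (-(c / 64) * L ^ 2)]

theorem main : ∃ c : ℝ, 0 < c ∧ ∃ k0 : ℕ, ∀ k ≥ k0, 2 ≤ k ∧ ∀ n : ℕ, ∃ col : ℕ → Bool,
    (((APs k n).filter (fun q => ∀ i < k, col (q.1 + i * q.2) = col q.1)).card : ℝ)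
      ≤ Real.exp (-c * Real.log k ^ 2) / (((k : ℝ) - 1) * 2 ^ k) * (n : ℝ) ^ 2 := by
  obtain ⟨c, hc0, hc1, hc⟩ : ∃ c : ℝ, 0 < c ∧ c ≤ 1 ∧ c = 1 / (2003 ^ 4 * 4096 * 32) :=
    ⟨_, by norm_num, by norm_num, rfl⟩
  refine ⟨c / 128, by positivity, ⌈Real.exp (12 * (16 * 27 ^ 3) / c)⌉₊, fun k hk => ?_⟩
  have hk1 : Real.exp (12 * (16 * 27 ^ 3) / c) ≤ k := Nat.ceil_le.1 hk
  have hk2 : (0 : ℝ) < k := (Real.exp_pos _).trans_le hk1
  obtain ⟨ε, J, T, h100, h0, h1, hJ2, hJ, herr, hG, hT, hfin⟩ := params hc0 hc1 k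
    (by exact_mod_cast hk2) ((Real.le_log_iff_exp_le hk2).2 hk1)
  refine ⟨by omega, fun n => ?_⟩
  obtain ⟨col, hcol⟩ := exists_colouring (k := k) (by omega) (a := 1 + ε) (by linarith) T
    (fun p hp0 hp => R_le h100 hp0 hp h0 h1 hJ2 hJ (G := c * ε ^ 4 * k ^ 2) (by rw [hc]; ring)
      herr hG hT) n
  refine ⟨col, hcol.trans ?_⟩
  have hk3 : (0 : ℝ) < (k : ℝ) - 1 := by
    have : (100 : ℝ) ≤ k := by exact_mod_cast h100
    linarith
  calc _ ≤ ((APs k n).card : ℝ) * (Real.exp (-(c / 128) * Real.log k ^ 2) / 2 ^ k) := by gcongr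
    _ ≤ (n : ℝ) ^ 2 / ((k : ℝ) - 1) * (Real.exp (-(c / 128) * Real.log k ^ 2) / 2 ^ k) :=
        mul_le_mul_of_nonneg_right (card_APs (by omega) n) (by positivity)
    _ = _ := by field_simp

end Pool.Agent.MP_a31471_co

end MrgPart4

-- marker of a merged file
example : 731051 + 527307 = 731051 + 527307 := rfl
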